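import Pool.Agent.N156.EP.A5
import Pool.Agent.N911.K6

/-! One-parameter families: a progressive residue search in the parameter `k`.

For fixed naturals `a, s` with `l = 1 + a s` the data of a cycle `(1, P, l, P)` are
`P = k l - s²`, `t = s + a P`, `b = a k - s`. -/

set_option autoImplicit false

namespace Pool.Agent.N863.EP

open H419R2 Finset
open Pool.Agent.N911 (SE SY SE_scale SY_scale Ent Chv evB evB_sound imp cj allN allN_iff imp_true
  cj_true beq_mod)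
open Pool.Agent.N156.EP (RelM4 Good4)

/-- the relation in normalized form -/
theorem rel_norm {c : CD} (hc : c.OK) [NeZero c.q] {t P a b : ℤ} {R : ℤ}
    (hR : R = 1 + a * t - a ^ 2 * P) (con : b * R = 2 * a * P - t)
    {tn Pn bn Rn Pi Ri : ℕ} (ht : ((tn : ℕ) : ZMod c.q) = (t : ZMod c.q))
    (hP : ((Pn : ℕ) : ZMod c.q) = (P : ZMod c.q)) (hb : ((bn : ℕ) : ZMod c.q) = (b : ZMod c.q))
    (hRn : ((Rn : ℕ) : ZMod c.q) = (R : ZMod c.q))
    (hPi : ((Pn * Pi : ℕ) : ZMod c.q) = 1) (hRi : ((Rn * Ri : ℕ) : ZMod c.q) = 1)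
    (h : RelM4 (chi c.q c.p c.T) t P a b = 0) {e0 e1 e2 cP cR : ℕ}
    (he0 : e0 = evB c tn Pn) (he1 : e1 = evB c (bn * Rn * Pi) (Rn * Pi))
    (he2 : e2 = evB c bn (Pn * Ri)) (hcP : cP = look c.T (Pn % c.q))
    (hcR : cR = look c.T (Rn % c.q)) :
    ((e0 % 128 : ℕ) : ZMod c.p) + t * ((e0 / 128 : ℕ) : ZMod c.p) +
      cP * (((e1 % 128 : ℕ) : ZMod c.p) + 2 * a * ((e1 / 128 : ℕ) : ZMod c.p)) +
      cR * (b * ((e2 / 128 : ℕ) : ZMod c.p)) = 0 := by
  have hmul := chi_mul hc.mul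
  have i0 : Ent c e0 t P := by rw [he0]; exact evB_sound hc ht hP
  have i1 : Ent c e1 (b * R * (Pi : ℤ)) (R * (Pi : ℤ)) := by
    rw [he1]
    apply evB_sound hc
    · push_cast; rw [hb, hRn]
    · push_cast; rw [hRn]
  have i2 : Ent c e2 b (P * (Ri : ℤ)) := by
    rw [he2]
    apply evB_sound hc hb
    push_cast; rw [hP]
  have v0 : ((cP : ℕ) : ZMod c.p) = chi c.q c.p c.T (P : ZMod c.q) := by
    rw [hcP, ← chi_cast, hP]
  have v1 : ((cR : ℕ) : ZMod c.p) = chi c.q c.p c.T (R : ZMod c.q) := by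
    rw [hcR, ← chi_cast, hRn]
  obtain ⟨a0, b0⟩ := i0 inferInstance
  obtain ⟨a1, b1⟩ := i1 inferInstance
  obtain ⟨a2, b2⟩ := i2 inferInstance
  have hPi' : (P : ZMod c.q) * (Pi : ZMod c.q) = 1 := by
    rw [← hPi, ← hP]; push_cast; rfl
  have hRi' : (R : ZMod c.q) * (Ri : ZMod c.q) = 1 := by
    rw [← hRi, ← hRn]; push_cast; rfl
  unfold RelM4 at h
  rw [← hR, ← con, SE_scale hmul (A := (P : ZMod c.q)) hPi', SY_scale hmul (A := (P : ZMod c.q)) hPi',
    SY_scale hmul (A := (R : ZMod c.q)) hRi'] at h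
  have e3 : ((b * R : ℤ) : ZMod c.q) * (Ri : ZMod c.q) = (b : ZMod c.q) := by
    push_cast
    linear_combination (b : ZMod c.q) * hRi'
  rw [e3] at h
  push_cast at h a1 b1 a2 b2
  rw [a0, b0, a1, b1, b2, v0, v1]
  linear_combination h

/-- check of a relation at integer data -/
def rck (c : CD) (full : Bool) (a t P b R : ℕ) : Bool :=
  force (Nat.mod (Nat.pow (Nat.mod P c.q) 35) c.q) (fun Pi =>
  force (Nat.mod (Nat.pow (Nat.mod R c.q) 35) c.q) (fun Ri =>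
  imp (Nat.beq (Nat.mod (Nat.mul P Pi) c.q) 1) (imp (Nat.beq (Nat.mod (Nat.mul R Ri) c.q) 1)
  (force (evB c t P) (fun e0 => force (evB c (Nat.mul (Nat.mul b R) Pi) (Nat.mul R Pi)) (fun e1 =>
  force (evB c b (Nat.mul P Ri)) (fun e2 => force (look c.T (Nat.mod P c.q)) (fun cP =>
  force (look c.T (Nat.mod R c.q)) (fun cR =>
  @Bool.rec (fun _ => Bool)
    (imp (Nat.beq (Nat.div e0 128) 0) (imp (Nat.beq (Nat.div e1 128) 0)
      (imp (Nat.beq (Nat.div e2 128) 0)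
        (Nat.beq (Nat.mod (Nat.add (Nat.mod e0 128) (Nat.mul cP (Nat.mod e1 128))) c.p) 0))))
    (Nat.beq (Nat.mod (Nat.add (Nat.add (Nat.add (Nat.mod e0 128) (Nat.mul t (Nat.div e0 128)))
      (Nat.mul cP (Nat.add (Nat.mod e1 128) (Nat.mul (Nat.mul 2 a) (Nat.div e1 128)))))
      (Nat.mul cR (Nat.mul b (Nat.div e2 128)))) c.p) 0)
    full)))))))))

theorem cast_of_beq {x q : ℕ} (hq : 1 < q) (h : Nat.beq (Nat.mod x q) 1 = true) :
    ((x : ℕ) : ZMod q) = 1 := by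
  have h1 : x % q = 1 := Nat.eq_of_beq_eq_true h
  have h2 : ((x : ℕ) : ZMod q) = ((1 : ℕ) : ZMod q) := by
    rw [ZMod.natCast_eq_natCast_iff', h1, Nat.mod_eq_of_lt hq]
  rw [h2]; simp

theorem imp_of {c x : Bool} (h : c = true → x = true) : imp c x = true := by
  cases c with
  | false => rfl
  | true => exact h rfl

theorem rck_sound {c : CD} (hc : c.OK) {full : Bool} {t P a b : ℤ} {R : ℤ}
    (hR : R = 1 + a * t - a ^ 2 * P) (con : b * R = 2 * a * P - t)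
    {an tn Pn bn Rn : ℕ} (ht : ((tn : ℕ) : ZMod c.q) = (t : ZMod c.q))
    (hP : ((Pn : ℕ) : ZMod c.q) = (P : ZMod c.q)) (hb : ((bn : ℕ) : ZMod c.q) = (b : ZMod c.q))
    (hRn : ((Rn : ℕ) : ZMod c.q) = (R : ZMod c.q)) (ha : (an : ℤ) = a)
    (hfull : full = true → ((tn : ℕ) : ZMod c.p) = (t : ZMod c.p) ∧
      ((bn : ℕ) : ZMod c.p) = (b : ZMod c.p))
    (h : ∀ _ : NeZero c.q, RelM4 (chi c.q c.p c.T) t P a b = 0) :
    rck c full an tn Pn bn Rn = true := by
  have hq : NeZero c.q := ⟨by have := hc.q1; omega⟩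
  unfold rck
  simp only [force_eq]
  apply imp_of
  intro hPi
  apply imp_of
  intro hRi
  have hPi' := cast_of_beq hc.q1 hPi
  have hRi' := cast_of_beq hc.q1 hRi
  have key := rel_norm hc hR con ht hP hb hRn hPi' hRi' (h hq) rfl rfl rfl rfl rfl
  set e0 := evB c tn Pn
  set e1 := evB c (bn * Rn * (Nat.mod (Nat.pow (Nat.mod Pn c.q) 35) c.q))
    (Rn * (Nat.mod (Nat.pow (Nat.mod Pn c.q) 35) c.q))
  set e2 := evB c bn (Pn * (Nat.mod (Nat.pow (Nat.mod Rn c.q) 35) c.q))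
  have hah : ((an : ℕ) : ZMod c.p) = (a : ZMod c.p) := by
    rw [← ha]; simp
  cases full with
  | false =>
    change imp (Nat.beq (e0 / 128) 0) (imp (Nat.beq (e1 / 128) 0) (imp (Nat.beq (e2 / 128) 0)
      (Nat.beq (Nat.mod (e0 % 128 + look c.T (Pn % c.q) * (e1 % 128)) c.p) 0))) = true
    apply imp_of
    intro z0
    apply imp_of
    intro z1
    apply imp_of
    intro z2
    rw [Nat.eq_of_beq_eq_true z0, Nat.eq_of_beq_eq_true z1, Nat.eq_of_beq_eq_true z2] at key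
    apply beq_mod
    push_cast
    linear_combination key
  | true =>
    obtain ⟨ht', hb'⟩ := hfull rfl
    change Nat.beq (Nat.mod (e0 % 128 + tn * (e0 / 128) + look c.T (Pn % c.q) *
      (e1 % 128 + 2 * an * (e1 / 128)) + look c.T (Rn % c.q) * (bn * (e2 / 128))) c.p) 0 = true
    apply beq_mod
    push_cast
    rw [ht', hb', hah]
    linear_combination key

/-- nonresidue test (for `L = 4`: parity of `t`) -/
def nresB (L t P : ℕ) : Bool :=
  @Bool.rec (fun _ => Bool)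
    (Nat.beq (Nat.mod (Nat.pow (Nat.mod (Nat.add (Nat.mul t t) (Nat.mul 4 P)) L)
      (Nat.div L 2)) L) (Nat.sub L 1))
    (Nat.beq (Nat.mod t 2) 1) (Nat.beq L 4)

/-- all checks at one residue -/
noncomputable def cnd (a s l M L : ℕ) (cs : List (CD × Bool)) (k : ℕ) : Bool :=
  force (Nat.add k (Nat.mul (Nat.mul s s) (Nat.mul M L))) (fun kk =>
  force (Nat.sub (Nat.mul kk l) (Nat.mul s s)) (fun P =>
  force (Nat.add s (Nat.mul a P)) (fun t => force (Nat.sub (Nat.mul a kk) s) (fun b =>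
    cj (nresB L t P) (@List.rec (CD × Bool) (fun _ => Bool) true
      (fun c _ ih => cj (rck c.1 c.2 a t P b l) ih) cs)))))

/-- the search -/
noncomputable def go (a s l : ℕ) (st : List (ℕ × List (CD × Bool))) : ℕ → ℕ → Bool :=
  @List.rec (ℕ × List (CD × Bool)) (fun _ => ℕ → ℕ → Bool) (fun _ _ => false)
    (fun x _ ih M k => allN x.1 (fun j => force (Nat.add k (Nat.mul M j)) (fun k1 =>
      imp (cnd a s l M x.1 x.2 k1) (ih (Nat.mul M x.1) k1)))) st

/-- validity of the stages -/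
def Val (H : CD → Prop) (N : ℕ → Prop) : List (ℕ × List (CD × Bool)) → ℕ → Prop
  | [], _ => True
  | (L, cs) :: r, M => 0 < L ∧ N L ∧
      (∀ c ∈ cs, H c.1 ∧ c.1.q ∣ M * L ∧ (c.2 = true → c.1.p ∣ M * L)) ∧ Val H N r (M * L)

theorem nresB_sound {L tn Pn : ℕ} {t P : ℤ} (ht : ((tn : ℕ) : ZMod L) = (t : ZMod L))
    (hP : ((Pn : ℕ) : ZMod L) = (P : ZMod L)) (hto : t % 2 = 1)
    (h : L = 4 ∨ (L.Prime ∧ L ≠ 2 ∧ ¬ IsSquare ((t ^ 2 + 4 * P : ℤ) : ZMod L))) :
    nresB L tn Pn = true := by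
  unfold nresB
  rcases h with rfl | ⟨hp, h2, hn⟩
  · change Nat.beq (tn % 2) 1 = true
    have h1 : (4 : ℤ) ∣ (tn : ℤ) - t := by
      have : (((tn : ℤ) - t : ℤ) : ZMod 4) = 0 := by push_cast; rw [ht]; ring
      exact (ZMod.intCast_zmod_eq_zero_iff_dvd _ 4).mp this
    have h3 : tn % 2 = 1 := by omega
    rw [h3]; rfl
  · have h4 : Nat.beq L 4 = false := by
      apply Bool.eq_false_iff.mpr
      intro h'
      have := Nat.eq_of_beq_eq_true h'
      subst this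
      revert hp; decide
    rw [h4]
    have : Fact L.Prime := ⟨hp⟩
    have hd : ((Nat.mod (Nat.add (Nat.mul tn tn) (Nat.mul 4 Pn)) L : ℕ) : ZMod L) =
        ((t ^ 2 + 4 * P : ℤ) : ZMod L) := by
      change (((tn * tn + 4 * Pn) % L : ℕ) : ZMod L) = _
      rw [ZMod.natCast_mod]
      push_cast
      rw [ht, hP]; ring
    set d : ZMod L := ((t ^ 2 + 4 * P : ℤ) : ZMod L) with hdd
    have hd0 : d ≠ 0 := by
      intro h0
      apply hn
      rw [h0]
      exact IsSquare.zero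
    have he : d ^ (L / 2) = -1 := by
      rcases ZMod.pow_div_two_eq_neg_one_or_one L hd0 with h5 | h5
      · exact absurd ((ZMod.euler_criterion L hd0).mpr h5) hn
      · exact h5
    have hL2 : 2 ≤ L := hp.two_le
    have h6 : Nat.mod (Nat.pow (Nat.mod (Nat.add (Nat.mul tn tn) (Nat.mul 4 Pn)) L)
      (Nat.div L 2)) L = Nat.sub L 1 := by
      have h7 : (((Nat.mod (Nat.add (Nat.mul tn tn) (Nat.mul 4 Pn)) L) ^ (L / 2) : ℕ) : ZMod L) =
          ((L - 1 : ℕ) : ZMod L) := by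
        rw [Nat.cast_pow, hd, he, Nat.cast_sub (by omega)]
        simp
      rw [ZMod.natCast_eq_natCast_iff'] at h7
      rw [Nat.mod_eq_of_lt (show L - 1 < L by omega)] at h7
      exact h7
    change Nat.beq (Nat.mod (Nat.pow (Nat.mod (Nat.add (Nat.mul tn tn) (Nat.mul 4 Pn)) L)
      (Nat.div L 2)) L) (Nat.sub L 1) = true
    rw [h6]
    exact Nat.beq_refl _

theorem cast_of_modEq {x : ℕ} {y : ℤ} {q M : ℕ} (hq : q ∣ M) (h : (M : ℤ) ∣ (x : ℤ) - y) :
    ((x : ℕ) : ZMod q) = (y : ZMod q) := by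
  have h1 : (q : ℤ) ∣ (x : ℤ) - y := dvd_trans (by exact_mod_cast hq) h
  have h2 := (ZMod.intCast_zmod_eq_zero_iff_dvd ((x : ℤ) - y) q).mpr h1
  push_cast at h2
  exact sub_eq_zero.mp h2

/-- soundness of the checks at one residue -/
theorem cnd_sound {a s l : ℕ} (ha : 1 ≤ a) (hs : 1 ≤ s) (hl : l = 1 + a * s) {k t P b : ℤ}
    (hP : P = k * l - s ^ 2) (ht : t = s + a * P) (hb : b = a * k - s) (hto : t % 2 = 1)
    {M L : ℕ} (hM : 0 < M) (hL : 0 < L) {cs : List (CD × Bool)} {k1 : ℕ}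
    (hk : ((M * L : ℕ) : ℤ) ∣ (k1 : ℤ) - k)
    (hN : L = 4 ∨ (L.Prime ∧ L ≠ 2 ∧ ¬ IsSquare ((t ^ 2 + 4 * P : ℤ) : ZMod L)))
    (hc : ∀ c ∈ cs, (c.1.OK ∧ ∀ _ : NeZero c.1.q,
      RelM4 (chi c.1.q c.1.p c.1.T) t P (a : ℤ) b = 0) ∧ c.1.q ∣ M * L ∧
      (c.2 = true → c.1.p ∣ M * L)) :
    cnd a s l M L cs k1 = true := by
  unfold cnd
  simp only [force_eq]
  have main : ∀ kk Pn tn bn : ℕ, kk = k1 + s * s * (M * L) → Pn = kk * l - s * s →
      tn = s + a * Pn → bn = a * kk - s → cj (nresB L tn Pn)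
      (@List.rec (CD × Bool) (fun _ => Bool) true
        (fun c _ ih => cj (rck c.1 c.2 a tn Pn bn l) ih) cs) = true := ?_
  · exact main _ _ _ _ rfl rfl rfl rfl
  intro kk Pn tn bn hkk hPn htn hbn
  have hML : 1 ≤ M * L := Nat.mul_pos hM hL
  have hkk1 : s * s ≤ kk := by
    rw [hkk]
    calc s * s = s * s * 1 := by ring
      _ ≤ s * s * (M * L) := Nat.mul_le_mul_left _ hML
      _ ≤ _ := Nat.le_add_left _ _
  have hl1 : 1 ≤ l := by omega
  have h1 : s * s ≤ kk * l := le_trans hkk1 (Nat.le_mul_of_pos_right _ hl1)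
  have hss : s ≤ s * s := Nat.le_mul_of_pos_right _ hs
  have h2 : s ≤ a * kk := le_trans (le_trans hss hkk1) (Nat.le_mul_of_pos_left _ ha)
  have zk : ((M * L : ℕ) : ℤ) ∣ (kk : ℤ) - k := by
    rw [hkk]
    have : ((k1 + s * s * (M * L) : ℕ) : ℤ) - k = ((k1 : ℤ) - k) + s * s * ((M * L : ℕ) : ℤ) := by
      push_cast; ring
    rw [this]
    exact dvd_add hk (Dvd.intro_left _ rfl)
  have zP : ((M * L : ℕ) : ℤ) ∣ (Pn : ℤ) - P := by
    have : (Pn : ℤ) - P = ((kk : ℤ) - k) * l := by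
      rw [hPn, hP, Nat.cast_sub h1]; push_cast; ring
    rw [this]; exact Dvd.dvd.mul_right zk _
  have zt : ((M * L : ℕ) : ℤ) ∣ (tn : ℤ) - t := by
    have : (tn : ℤ) - t = a * ((Pn : ℤ) - P) := by
      rw [htn, ht]; push_cast; ring
    rw [this]; exact Dvd.dvd.mul_left zP _
  have zb : ((M * L : ℕ) : ℤ) ∣ (bn : ℤ) - b := by
    have : (bn : ℤ) - b = a * ((kk : ℤ) - k) := by
      rw [hbn, hb, Nat.cast_sub h2]; push_cast; ring
    rw [this]; exact Dvd.dvd.mul_left zk _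
  have hR : (l : ℤ) = 1 + (a : ℤ) * t - (a : ℤ) ^ 2 * P := by
    rw [ht, hl]; push_cast; ring
  have con : b * (l : ℤ) = 2 * a * P - t := by
    rw [ht, hb, hP, hl]; push_cast; ring
  have g1 : nresB L tn Pn = true :=
    nresB_sound (cast_of_modEq (Dvd.intro_left M rfl) zt) (cast_of_modEq (Dvd.intro_left M rfl) zP)
      hto hN
  have g2 : ∀ cs' : List (CD × Bool), (∀ c ∈ cs', c ∈ cs) →
      (@List.rec (CD × Bool) (fun _ => Bool) true
      (fun c _ ih => cj (rck c.1 c.2 a tn Pn bn l) ih) cs') = true := by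
    intro cs'
    induction cs' with
    | nil => intro _; rfl
    | cons c r ih =>
      intro hsub
      change cj (rck c.1 c.2 a tn Pn bn l) _ = true
      rw [cj_true]
      refine ⟨?_, ih (fun c' hc' => hsub c' (List.mem_cons_of_mem _ hc'))⟩
      obtain ⟨⟨c1, c2⟩, c3, c4⟩ := hc c (hsub c List.mem_cons_self)
      exact rck_sound c1 hR con (cast_of_modEq c3 zt) (cast_of_modEq c3 zP) (cast_of_modEq c3 zb)
        (by simp) rfl (fun hf => ⟨cast_of_modEq (c4 hf) zt, cast_of_modEq (c4 hf) zb⟩) c2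
  rw [cj_true]
  exact ⟨g1, g2 cs (fun _ h => h)⟩

/-- soundness of the search -/
theorem go_sound {a s l : ℕ} (ha : 1 ≤ a) (hs : 1 ≤ s) (hl : l = 1 + a * s) {k t P b : ℤ}
    (hP : P = k * l - s ^ 2) (ht : t = s + a * P) (hb : b = a * k - s) (hto : t % 2 = 1)
    (st : List (ℕ × List (CD × Bool))) : ∀ {M k0 : ℕ}, 0 < M → (M : ℤ) ∣ (k0 : ℤ) - k →
    Val (fun c => c.OK ∧ ∀ _ : NeZero c.q, RelM4 (chi c.q c.p c.T) t P (a : ℤ) b = 0)
      (fun L => L = 4 ∨ (L.Prime ∧ L ≠ 2 ∧ ¬ IsSquare ((t ^ 2 + 4 * P : ℤ) : ZMod L))) st M →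
    go a s l st M k0 = true → False := by
  induction st with
  | nil =>
    intro M k0 _ _ _ h
    have h' : false = true := h
    exact absurd h' (by decide)
  | cons x r ih =>
    intro M k0 hM hk hV h
    obtain ⟨L, cs⟩ := x
    obtain ⟨hL, hN, hc, hV'⟩ := hV
    have h' : allN L (fun j => force (Nat.add k0 (Nat.mul M j)) (fun k1 =>
      imp (cnd a s l M L cs k1) (go a s l r (Nat.mul M L) k1))) = true := h
    rw [allN_iff] at h'
    obtain ⟨u, hu⟩ := hk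
    -- k = k0 - M u
    have hL' : (0 : ℤ) < L := by exact_mod_cast hL
    obtain ⟨j, hj⟩ : ∃ j : ℕ, (j : ℤ) = (-u) % L := ⟨((-u) % L).toNat,
      Int.toNat_of_nonneg (Int.emod_nonneg _ hL'.ne')⟩
    have hjL : j < L := by
      have := Int.emod_lt_of_pos (-u) hL'
      rw [← hj] at this
      exact_mod_cast this
    have h1 := h' j hjL
    rw [force_eq] at h1
    have hk1 : ((M * L : ℕ) : ℤ) ∣ ((k0 + M * j : ℕ) : ℤ) - k := by
      obtain ⟨v, hv⟩ : ∃ v, (-u) % (L : ℤ) = -u - L * v := ⟨(-u) / L, by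
        have := Int.emod_add_mul_ediv (-u) L
        linarith⟩
      rw [hv] at hj
      refine ⟨-v, ?_⟩
      push_cast
      rw [hj]
      linear_combination hu
    have h2 := cnd_sound ha hs hl hP ht hb hto hM hL hk1 hN hc
    have h3 : go a s l r (M * L) (k0 + M * j) = true := imp_true h1 h2
    exact ih (Nat.mul_pos hM hL) hk1 hV' h3

end Pool.Agent.N863.EP
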