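import Pool.Agent.N863.EP.E1
import Pool.Agent.N911.D1
import Pool.Agent.N911.D2
import Pool.Agent.N911.D3
import Pool.Agent.H419R2.F1
import Pool.Agent.H419R2.F2
import Pool.Agent.H419R2.F3
import Pool.Agent.H419R2.F5

/-! The searches for the one-parameter families. -/

set_option autoImplicit false
set_option maxRecDepth 100000

namespace Pool.Agent.N863.EP

open H419R2
open Pool.Agent.N911 (c133_73 c259_19_0 c259_19_1 c259_19_2 c259_73)

def st3 : List (ℕ × List (CD × Bool)) :=
  [(4, []), (37, [(c148_19, false)]), (7, [(c259_19_2, false)]), (5, [(c140_13, false)]),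
    (19, [(c133_37, true)]), (73, [(c259_73, true)]), (109, [(c95_109, true)])]

def st7a : List (ℕ × List (CD × Bool)) :=
  [(4, []), (37, [(c148_19, false)]), (5, []), (19, []), (3, [(c111_19_0, true)]),
    (13, [(c185_13, true), (c95_13, true)])]

def st7b : List (ℕ × List (CD × Bool)) :=
  [(4, []), (37, [(c148_19, false)]), (5, []), (19, []),
    (3, [(c111_19_0, true), (c111_19_1, true)])]

def st19a : List (ℕ × List (CD × Bool)) :=
  [(4, []), (37, [(c148_7, false)]), (7, []), (5, [(c140_13, false)])]

def st19b : List (ℕ × List (CD × Bool)) :=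
  [(4, []), (37, [(c148_7, false)]), (7, []), (5, [(c140_13, false)]), (3, []),
    (13, [(c105_13, true), (c91_37, true)])]

theorem run19a : go 1 18 19 st19a 1 0 = true := by decide +kernel
theorem run7b : go 3 2 7 st7b 1 0 = true := by decide +kernel
theorem run7a : go 1 6 7 st7a 1 0 = true := by decide +kernel
theorem run19b : go 3 6 19 st19b 1 0 = true := by decide +kernel
theorem run19c : go 9 2 19 st19b 1 0 = true := by decide +kernel
theorem run3 : go 1 2 3 st3 1 0 = true := by decide +kernel

end Pool.Agent.N863.EP
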