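import Pool.Agent.N863.EP.E2

/-! The one-parameter families are empty for large discriminants. -/

set_option autoImplicit false
set_option maxRecDepth 100000

namespace Pool.Agent.N863.EP

open H419R2
open Pool.Agent.N911 (c259_19_2 c259_73 c259_19_2_ok c259_73_ok)
open Pool.Agent.N156.EP (RelM4 Good4)

theorem k_exists {a s l : ℕ} (hl : l = 1 + a * s) (ha : 1 ≤ a) {t P b : ℤ}
    (hR : 1 + (a : ℤ) * t - (a : ℤ) ^ 2 * P = l)
    (con : b * (1 + (a : ℤ) * t - (a : ℤ) ^ 2 * P) = 2 * a * P - t) :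
    ∃ k : ℤ, P = k * l - (s : ℤ) ^ 2 ∧ t = s + a * P ∧ b = a * k - s := by
  rw [hR] at con
  have ha' : (a : ℤ) ≠ 0 := by
    have : (1 : ℤ) ≤ a := by exact_mod_cast ha
    omega
  have hl' : (l : ℤ) = 1 + a * s := by rw [hl]; push_cast; ring
  have h1 : t = s + a * P := by
    have : (a : ℤ) * (t - (s + a * P)) = 0 := by rw [hl'] at hR; linear_combination hR
    rcases mul_eq_zero.mp this with h | h
    · exact absurd h ha'
    · linarith
  refine ⟨P - b * s, ?_, h1, ?_⟩
  · rw [h1, hl'] at con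
    rw [hl']
    linear_combination (s : ℤ) * con
  · rw [h1, hl'] at con
    linear_combination con

/-- all primes of the list are inert -/
def Inert (D : ℕ) (L : List ℕ) : Prop := ∀ l ∈ L, ¬ IsSquare ((D : ℕ) : ZMod l)

theorem coprime_of_inert {D l : ℕ} (hl : l.Prime) (h : ¬ IsSquare ((D : ℕ) : ZMod l)) :
    Nat.Coprime l D := by
  rw [Nat.Prime.coprime_iff_not_dvd hl]
  intro h1
  apply h
  rw [(ZMod.natCast_eq_zero_iff D l).mpr h1]
  exact IsSquare.zero

theorem rel_of_coprime {t P a b : ℤ} {D : ℕ} (G : Good4 t P a b D) (hP : P % 2 = 1) {Mt : ℕ}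
    (hco : Nat.Coprime Mt D) {c : CD} (hc : c.OK) (hq : c.q ∣ Mt) (hp : c.p ∣ Mt) :
    c.OK ∧ ∀ _ : NeZero c.q, RelM4 (chi c.q c.p c.T) t P a b = 0 := by
  refine ⟨hc, ?_⟩
  intro _
  have hcop : c.q.Coprime D := Nat.Coprime.coprime_dvd_left hq hco
  have hpc : c.p.Coprime D := Nat.Coprime.coprime_dvd_left hp hco
  have hpD : ¬ (c.p : ℤ) ∣ D := by
    intro h
    have h1 : c.p ∣ D := by exact_mod_cast h
    exact (Nat.Prime.coprime_iff_not_dvd hc.pp).mp hpc h1
  exact G.rel_mod hP hc.pp hc.p2 hpD hcop _ (chi_mul hc.mul) (chi_neg hc.q1 hc.mul hc.oth)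
    (chi_sum hc.oth)

section

variable {t P b : ℤ} {D : ℕ}

theorem notsq {a : ℤ} (G : Good4 t P a b D) {L : ℕ} (h : ¬ IsSquare ((D : ℕ) : ZMod L)) :
    ¬ IsSquare ((t ^ 2 + 4 * P : ℤ) : ZMod L) := by
  rw [← G.hD]; simpa using h

/-- `l = 3` -/
theorem fam3 (G : Good4 t P ((1 : ℕ) : ℤ) b D) (hR : 1 + ((1 : ℕ) : ℤ) * t - ((1 : ℕ) : ℤ) ^ 2 * P = 3)
    (hto : t % 2 = 1) (hPo : P % 2 = 1) (hD2 : Nat.Coprime 2 D)
    (hI : Inert D [5, 7, 13, 19, 37, 73, 109]) : False := by
  obtain ⟨k, h1, h2, h3⟩ := k_exists (a := 1) (s := 2) (l := 3) rfl le_rfl (by exact_mod_cast hR)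
    G.con
  have i5 := hI 5 (by simp)
  have i7 := hI 7 (by simp)
  have i13 := hI 13 (by simp)
  have i19 := hI 19 (by simp)
  have i37 := hI 37 (by simp)
  have i73 := hI 73 (by simp)
  have i109 := hI 109 (by simp)
  have hco : Nat.Coprime (4 * 5 * 7 * 13 * 19 * 37 * 73 * 109) D := by
    have h4 : Nat.Coprime 4 D := Nat.Coprime.mul_left hD2 hD2
    exact ((((((h4.mul_left (coprime_of_inert (by norm_num) i5)).mul_left
      (coprime_of_inert (by norm_num) i7)).mul_left (coprime_of_inert (by norm_num) i13)).mul_left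
      (coprime_of_inert (by norm_num) i19)).mul_left (coprime_of_inert (by norm_num) i37)).mul_left
      (coprime_of_inert (by norm_num) i73)).mul_left (coprime_of_inert (by norm_num) i109)
  refine go_sound (a := 1) (s := 2) (l := 3) (k := k) (t := t) (P := P) (b := b) le_rfl (by norm_num)
    rfl (by exact_mod_cast h1) (by exact_mod_cast h2) (by exact_mod_cast h3) hto st3 (M := 1)
    (k0 := 0) one_pos (one_dvd _) ?_ run3
  refine ⟨by norm_num, Or.inl rfl, by intro c hc; simp at hc, ?_⟩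
  refine ⟨by norm_num, Or.inr ⟨by norm_num, by norm_num, notsq G i37⟩, ?_, ?_⟩
  · intro c hc
    rw [List.mem_singleton] at hc; subst hc
    exact ⟨rel_of_coprime G hPo hco c148_19_ok (by decide +kernel) (by decide +kernel),
      by decide +kernel, by intro h; cases h⟩
  refine ⟨by norm_num, Or.inr ⟨by norm_num, by norm_num, notsq G i7⟩, ?_, ?_⟩
  · intro c hc
    rw [List.mem_singleton] at hc; subst hc
    exact ⟨rel_of_coprime G hPo hco c259_19_2_ok (by decide +kernel) (by decide +kernel),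
      by decide +kernel, by intro h; cases h⟩
  refine ⟨by norm_num, Or.inr ⟨by norm_num, by norm_num, notsq G i5⟩, ?_, ?_⟩
  · intro c hc
    rw [List.mem_singleton] at hc; subst hc
    exact ⟨rel_of_coprime G hPo hco c140_13_ok (by decide +kernel) (by decide +kernel),
      by decide +kernel, by intro h; cases h⟩
  refine ⟨by norm_num, Or.inr ⟨by norm_num, by norm_num, notsq G i19⟩, ?_, ?_⟩
  · intro c hc
    rw [List.mem_singleton] at hc; subst hc
    exact ⟨rel_of_coprime G hPo hco c133_37_ok (by decide +kernel) (by decide +kernel),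
      by decide +kernel, fun _ => by decide +kernel⟩
  refine ⟨by norm_num, Or.inr ⟨by norm_num, by norm_num, notsq G i73⟩, ?_, ?_⟩
  · intro c hc
    rw [List.mem_singleton] at hc; subst hc
    exact ⟨rel_of_coprime G hPo hco c259_73_ok (by decide +kernel) (by decide +kernel),
      by decide +kernel, fun _ => by decide +kernel⟩
  refine ⟨by norm_num, Or.inr ⟨by norm_num, by norm_num, notsq G i109⟩, ?_, trivial⟩
  · intro c hc
    rw [List.mem_singleton] at hc; subst hc
    exact ⟨rel_of_coprime G hPo hco c95_109_ok (by decide +kernel) (by decide +kernel),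
      by decide +kernel, fun _ => by decide +kernel⟩

/-- `l = 7`, `a = 1` -/
theorem fam7a (G : Good4 t P ((1 : ℕ) : ℤ) b D) (hR : 1 + ((1 : ℕ) : ℤ) * t - ((1 : ℕ) : ℤ) ^ 2 * P = 7)
    (hto : t % 2 = 1) (hPo : P % 2 = 1) (hD2 : Nat.Coprime 2 D)
    (hI : Inert D [3, 5, 13, 19, 37]) : False := by
  obtain ⟨k, h1, h2, h3⟩ := k_exists (a := 1) (s := 6) (l := 7) rfl le_rfl (by exact_mod_cast hR)
    G.con
  have i3 := hI 3 (by simp)
  have i5 := hI 5 (by simp)
  have i13 := hI 13 (by simp)
  have i19 := hI 19 (by simp)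
  have i37 := hI 37 (by simp)
  have hco : Nat.Coprime (4 * 3 * 5 * 13 * 19 * 37) D := by
    have h4 : Nat.Coprime 4 D := Nat.Coprime.mul_left hD2 hD2
    exact ((((h4.mul_left (coprime_of_inert (by norm_num) i3)).mul_left
      (coprime_of_inert (by norm_num) i5)).mul_left (coprime_of_inert (by norm_num) i13)).mul_left
      (coprime_of_inert (by norm_num) i19)).mul_left (coprime_of_inert (by norm_num) i37)
  refine go_sound (a := 1) (s := 6) (l := 7) (k := k) (t := t) (P := P) (b := b) le_rfl (by norm_num)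
    rfl (by exact_mod_cast h1) (by exact_mod_cast h2) (by exact_mod_cast h3) hto st7a (M := 1)
    (k0 := 0) one_pos (one_dvd _) ?_ run7a
  refine ⟨by norm_num, Or.inl rfl, by intro c hc; simp at hc, ?_⟩
  refine ⟨by norm_num, Or.inr ⟨by norm_num, by norm_num, notsq G i37⟩, ?_, ?_⟩
  · intro c hc
    rw [List.mem_singleton] at hc; subst hc
    exact ⟨rel_of_coprime G hPo hco c148_19_ok (by decide +kernel) (by decide +kernel),
      by decide +kernel, by intro h; cases h⟩
  refine ⟨by norm_num, Or.inr ⟨by norm_num, by norm_num, notsq G i5⟩, by intro c hc; simp at hc, ?_⟩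
  refine ⟨by norm_num, Or.inr ⟨by norm_num, by norm_num, notsq G i19⟩, by intro c hc; simp at hc, ?_⟩
  refine ⟨by norm_num, Or.inr ⟨by norm_num, by norm_num, notsq G i3⟩, ?_, ?_⟩
  · intro c hc
    rw [List.mem_singleton] at hc; subst hc
    exact ⟨rel_of_coprime G hPo hco c111_19_0_ok (by decide +kernel) (by decide +kernel),
      by decide +kernel, fun _ => by decide +kernel⟩
  refine ⟨by norm_num, Or.inr ⟨by norm_num, by norm_num, notsq G i13⟩, ?_, trivial⟩
  · intro c hc
    rw [List.mem_cons, List.mem_singleton] at hc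
    rcases hc with rfl | rfl
    · exact ⟨rel_of_coprime G hPo hco c185_13_ok (by decide +kernel) (by decide +kernel),
        by decide +kernel, fun _ => by decide +kernel⟩
    · exact ⟨rel_of_coprime G hPo hco c95_13_ok (by decide +kernel) (by decide +kernel),
        by decide +kernel, fun _ => by decide +kernel⟩

/-- `l = 7`, `a = 3` -/
theorem fam7b (G : Good4 t P ((3 : ℕ) : ℤ) b D) (hR : 1 + ((3 : ℕ) : ℤ) * t - ((3 : ℕ) : ℤ) ^ 2 * P = 7)
    (hto : t % 2 = 1) (hPo : P % 2 = 1) (hD2 : Nat.Coprime 2 D)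
    (hI : Inert D [3, 5, 19, 37]) : False := by
  obtain ⟨k, h1, h2, h3⟩ := k_exists (a := 3) (s := 2) (l := 7) rfl (by norm_num)
    (by exact_mod_cast hR) G.con
  have i3 := hI 3 (by simp)
  have i5 := hI 5 (by simp)
  have i19 := hI 19 (by simp)
  have i37 := hI 37 (by simp)
  have hco : Nat.Coprime (4 * 3 * 5 * 19 * 37) D := by
    have h4 : Nat.Coprime 4 D := Nat.Coprime.mul_left hD2 hD2
    exact (((h4.mul_left (coprime_of_inert (by norm_num) i3)).mul_left
      (coprime_of_inert (by norm_num) i5)).mul_left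
      (coprime_of_inert (by norm_num) i19)).mul_left (coprime_of_inert (by norm_num) i37)
  refine go_sound (a := 3) (s := 2) (l := 7) (k := k) (t := t) (P := P) (b := b) (by norm_num)
    (by norm_num) rfl (by exact_mod_cast h1) (by exact_mod_cast h2) (by exact_mod_cast h3) hto st7b
    (M := 1) (k0 := 0) one_pos (one_dvd _) ?_ run7b
  refine ⟨by norm_num, Or.inl rfl, by intro c hc; simp at hc, ?_⟩
  refine ⟨by norm_num, Or.inr ⟨by norm_num, by norm_num, notsq G i37⟩, ?_, ?_⟩
  · intro c hc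
    rw [List.mem_singleton] at hc; subst hc
    exact ⟨rel_of_coprime G hPo hco c148_19_ok (by decide +kernel) (by decide +kernel),
      by decide +kernel, by intro h; cases h⟩
  refine ⟨by norm_num, Or.inr ⟨by norm_num, by norm_num, notsq G i5⟩, by intro c hc; simp at hc, ?_⟩
  refine ⟨by norm_num, Or.inr ⟨by norm_num, by norm_num, notsq G i19⟩, by intro c hc; simp at hc, ?_⟩
  refine ⟨by norm_num, Or.inr ⟨by norm_num, by norm_num, notsq G i3⟩, ?_, trivial⟩
  · intro c hc
    rw [List.mem_cons, List.mem_singleton] at hc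
    rcases hc with rfl | rfl
    · exact ⟨rel_of_coprime G hPo hco c111_19_0_ok (by decide +kernel) (by decide +kernel),
        by decide +kernel, fun _ => by decide +kernel⟩
    · exact ⟨rel_of_coprime G hPo hco c111_19_1_ok (by decide +kernel) (by decide +kernel),
        by decide +kernel, fun _ => by decide +kernel⟩

/-- `l = 19`, `a = 1` -/
theorem fam19a (G : Good4 t P ((1 : ℕ) : ℤ) b D)
    (hR : 1 + ((1 : ℕ) : ℤ) * t - ((1 : ℕ) : ℤ) ^ 2 * P = 19)
    (hto : t % 2 = 1) (hPo : P % 2 = 1) (hD2 : Nat.Coprime 2 D)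
    (hI : Inert D [5, 7, 13, 37]) : False := by
  obtain ⟨k, h1, h2, h3⟩ := k_exists (a := 1) (s := 18) (l := 19) rfl (by norm_num)
    (by exact_mod_cast hR) G.con
  have i5 := hI 5 (by simp)
  have i7 := hI 7 (by simp)
  have i13 := hI 13 (by simp)
  have i37 := hI 37 (by simp)
  have hco : Nat.Coprime (4 * 5 * 7 * 13 * 37) D := by
    have h4 : Nat.Coprime 4 D := Nat.Coprime.mul_left hD2 hD2
    exact (((h4.mul_left (coprime_of_inert (by norm_num) i5)).mul_left
      (coprime_of_inert (by norm_num) i7)).mul_left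
      (coprime_of_inert (by norm_num) i13)).mul_left (coprime_of_inert (by norm_num) i37)
  refine go_sound (a := 1) (s := 18) (l := 19) (k := k) (t := t) (P := P) (b := b) (by norm_num)
    (by norm_num) rfl (by exact_mod_cast h1) (by exact_mod_cast h2) (by exact_mod_cast h3) hto st19a
    (M := 1) (k0 := 0) one_pos (one_dvd _) ?_ run19a
  refine ⟨by norm_num, Or.inl rfl, by intro c hc; simp at hc, ?_⟩
  refine ⟨by norm_num, Or.inr ⟨by norm_num, by norm_num, notsq G i37⟩, ?_, ?_⟩
  · intro c hc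
    rw [List.mem_singleton] at hc; subst hc
    exact ⟨rel_of_coprime G hPo hco c148_7_ok (by decide +kernel) (by decide +kernel),
      by decide +kernel, by intro h; cases h⟩
  refine ⟨by norm_num, Or.inr ⟨by norm_num, by norm_num, notsq G i7⟩, by intro c hc; simp at hc, ?_⟩
  refine ⟨by norm_num, Or.inr ⟨by norm_num, by norm_num, notsq G i5⟩, ?_, trivial⟩
  · intro c hc
    rw [List.mem_singleton] at hc; subst hc
    exact ⟨rel_of_coprime G hPo hco c140_13_ok (by decide +kernel) (by decide +kernel),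
      by decide +kernel, by intro h; cases h⟩

theorem val19b {a : ℤ} (G : Good4 t P a b D) (hPo : P % 2 = 1) (hD2 : Nat.Coprime 2 D)
    (hI : Inert D [3, 5, 7, 13, 37]) :
    Val (fun c => c.OK ∧ ∀ _ : NeZero c.q, RelM4 (chi c.q c.p c.T) t P a b = 0)
      (fun L => L = 4 ∨ (L.Prime ∧ L ≠ 2 ∧ ¬ IsSquare ((t ^ 2 + 4 * P : ℤ) : ZMod L))) st19b 1 := by
  have i3 := hI 3 (by simp)
  have i5 := hI 5 (by simp)
  have i7 := hI 7 (by simp)
  have i13 := hI 13 (by simp)
  have i37 := hI 37 (by simp)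
  have hco : Nat.Coprime (4 * 3 * 5 * 7 * 13 * 37) D := by
    have h4 : Nat.Coprime 4 D := Nat.Coprime.mul_left hD2 hD2
    exact ((((h4.mul_left (coprime_of_inert (by norm_num) i3)).mul_left
      (coprime_of_inert (by norm_num) i5)).mul_left (coprime_of_inert (by norm_num) i7)).mul_left
      (coprime_of_inert (by norm_num) i13)).mul_left (coprime_of_inert (by norm_num) i37)
  refine ⟨by norm_num, Or.inl rfl, by intro c hc; simp at hc, ?_⟩
  refine ⟨by norm_num, Or.inr ⟨by norm_num, by norm_num, notsq G i37⟩, ?_, ?_⟩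
  · intro c hc
    rw [List.mem_singleton] at hc; subst hc
    exact ⟨rel_of_coprime G hPo hco c148_7_ok (by decide +kernel) (by decide +kernel),
      by decide +kernel, by intro h; cases h⟩
  refine ⟨by norm_num, Or.inr ⟨by norm_num, by norm_num, notsq G i7⟩, by intro c hc; simp at hc, ?_⟩
  refine ⟨by norm_num, Or.inr ⟨by norm_num, by norm_num, notsq G i5⟩, ?_, ?_⟩
  · intro c hc
    rw [List.mem_singleton] at hc; subst hc
    exact ⟨rel_of_coprime G hPo hco c140_13_ok (by decide +kernel) (by decide +kernel),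
      by decide +kernel, by intro h; cases h⟩
  refine ⟨by norm_num, Or.inr ⟨by norm_num, by norm_num, notsq G i3⟩, by intro c hc; simp at hc, ?_⟩
  refine ⟨by norm_num, Or.inr ⟨by norm_num, by norm_num, notsq G i13⟩, ?_, trivial⟩
  · intro c hc
    rw [List.mem_cons, List.mem_singleton] at hc
    rcases hc with rfl | rfl
    · exact ⟨rel_of_coprime G hPo hco c105_13_ok (by decide +kernel) (by decide +kernel),
        by decide +kernel, fun _ => by decide +kernel⟩
    · exact ⟨rel_of_coprime G hPo hco c91_37_ok (by decide +kernel) (by decide +kernel),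
        by decide +kernel, fun _ => by decide +kernel⟩

/-- `l = 19`, `a = 3` -/
theorem fam19b (G : Good4 t P ((3 : ℕ) : ℤ) b D)
    (hR : 1 + ((3 : ℕ) : ℤ) * t - ((3 : ℕ) : ℤ) ^ 2 * P = 19)
    (hto : t % 2 = 1) (hPo : P % 2 = 1) (hD2 : Nat.Coprime 2 D)
    (hI : Inert D [3, 5, 7, 13, 37]) : False := by
  obtain ⟨k, h1, h2, h3⟩ := k_exists (a := 3) (s := 6) (l := 19) rfl (by norm_num)
    (by exact_mod_cast hR) G.con
  exact go_sound (a := 3) (s := 6) (l := 19) (k := k) (t := t) (P := P) (b := b) (by norm_num)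
    (by norm_num) rfl (by exact_mod_cast h1) (by exact_mod_cast h2) (by exact_mod_cast h3) hto st19b
    (M := 1) (k0 := 0) one_pos (one_dvd _) (val19b G hPo hD2 hI) run19b

/-- `l = 19`, `a = 9` -/
theorem fam19c (G : Good4 t P ((9 : ℕ) : ℤ) b D)
    (hR : 1 + ((9 : ℕ) : ℤ) * t - ((9 : ℕ) : ℤ) ^ 2 * P = 19)
    (hto : t % 2 = 1) (hPo : P % 2 = 1) (hD2 : Nat.Coprime 2 D)
    (hI : Inert D [3, 5, 7, 13, 37]) : False := by
  obtain ⟨k, h1, h2, h3⟩ := k_exists (a := 9) (s := 2) (l := 19) rfl (by norm_num)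
    (by exact_mod_cast hR) G.con
  exact go_sound (a := 9) (s := 2) (l := 19) (k := k) (t := t) (P := P) (b := b) (by norm_num)
    (by norm_num) rfl (by exact_mod_cast h1) (by exact_mod_cast h2) (by exact_mod_cast h3) hto st19b
    (M := 1) (k0 := 0) one_pos (one_dvd _) (val19b G hPo hD2 hI) run19c

end

end Pool.Agent.N863.EP
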