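import Pool.Agent.N863.EP.E3

/-! Small discriminants and small norms. -/

set_option autoImplicit false
set_option maxRecDepth 100000

namespace Pool.Agent.N863.EP

open H419R2
open Pool.Agent.N911 (imp cj allN allN_iff imp_true cj_true)
open Pool.Agent.N156.EP (RelM4 Good4 Par4)

/-- bounded existential quantifier -/
def anyN (n : ℕ) (f : ℕ → Bool) : Bool :=
  @Nat.rec (fun _ => Bool) false (fun i ih => @Bool.rec (fun _ => Bool) ih true (f i)) n

theorem anyN_true {n : ℕ} {f : ℕ → Bool} (h : anyN n f = true) : ∃ i < n, f i = true := by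
  induction n with
  | zero => exact absurd h (by simp [anyN])
  | succ n ih =>
    have e : anyN (n + 1) f = @Bool.rec (fun _ => Bool) (anyN n f) true (f n) := rfl
    rw [e] at h
    cases hf : f n with
    | true => exact ⟨n, Nat.lt_succ_self n, hf⟩
    | false =>
      rw [hf] at h
      obtain ⟨i, hi, h2⟩ := ih h
      exact ⟨i, Nat.lt_succ_of_lt hi, h2⟩

/-- small primes -/
def PLst : List ℕ := [2, 3, 5, 7, 11, 13, 17, 19, 23, 29, 31, 37, 41, 43, 47]

/-- the final list -/
def Fin13 : List ℕ := [33, 69, 133, 141, 213, 413, 573, 717, 1077, 1293, 1397, 1757, 3053]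

/-- witness at one prime -/
def wit1 (t P R D l : ℕ) : Bool :=
  cj (Nat.ble (Nat.mul 4 (Nat.mul l l)) D) (cj (not (Nat.beq l P)) (cj (not (Nat.beq l R))
    (anyN l (fun w => Nat.beq (Nat.mod (Nat.add (Nat.mul w w) (Nat.mul t w)) l) (Nat.mod P l)))))

/-- witness -/
def wit (t P R D : ℕ) : Bool := anyL PLst (fun l => wit1 t P R D l)

theorem wit_sound {t P R D : ℕ} {a b : ℤ} (G : Good4 t P a b D)
    (hR : (R : ℤ) = 1 + a * t - a ^ 2 * P) (h : wit t P R D = true) : False := by
  unfold wit at h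
  rw [anyL_iff] at h
  obtain ⟨l, hl, h1⟩ := h
  have hp : l.Prime := by
    have : ∀ l ∈ PLst, l.Prime := by
      unfold PLst
      simp only [List.mem_cons, List.not_mem_nil, or_false, forall_eq_or_imp, forall_eq]
      norm_num
    exact this l hl
  unfold wit1 at h1
  simp only [cj_true] at h1
  obtain ⟨h2, h3, h4, h5⟩ := h1
  have h2' : 4 * (l * l) ≤ D := Nat.le_of_ble_eq_true h2
  obtain ⟨w, _, h6⟩ := anyN_true h5
  have h6' : (w * w + t * w) % l = P % l := Nat.eq_of_beq_eq_true h6
  have h7 : (l : ℤ) ∣ (w : ℤ) ^ 2 + t * w - P := by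
    have h8 : (w * w + t * w) ≡ P [MOD l] := h6'
    have h9 := (Nat.modEq_iff_dvd.mp h8)
    push_cast at h9
    have : (w : ℤ) ^ 2 + t * w - P = -((P : ℤ) - (w * w + t * w)) := by ring
    rw [this]
    exact (dvd_neg).mpr h9
  have h10 := G.split l hp (by
    have : (4 * (l * l) : ℤ) ≤ D := by exact_mod_cast h2'
    linarith) ⟨w, h7⟩
  rcases h10 with h | h
  · have : l = P := by exact_mod_cast h
    subst this
    simp at h3
  · rw [← hR] at h
    have : l = R := by exact_mod_cast h
    subst this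
    simp at h4

/-- membership in the final list -/
def inL (D : ℕ) : Bool := anyL Fin13 (fun x => Nat.beq x D)

theorem inL_sound {D : ℕ} (h : inL D = true) : D ∈ Fin13 := by
  unfold inL at h
  rw [anyL_iff] at h
  obtain ⟨x, hx, h1⟩ := h
  rw [← Nat.eq_of_beq_eq_true h1]; exact hx

/-- test of the data belonging to `s, b, k` -/
def tst (s b k : ℕ) (ok : ℕ → ℕ → Bool) (c : ℕ → ℕ → ℕ → ℕ → Bool) : Bool :=
  imp (Nat.beq (Nat.mod (Nat.add b s) k) 0) (force (Nat.div (Nat.add b s) k) (fun a =>
  force (Nat.add k (Nat.mul s b)) (fun P => force (Nat.add s (Nat.mul a P)) (fun t =>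
  force (Nat.add (Nat.mul t t) (Nat.mul 4 P)) (fun D =>
  imp (Nat.beq (Nat.mod t 2) 1) (imp (ok t D) (c t P (Nat.add 1 (Nat.mul a s)) D)))))))

/-- small discriminants -/
def chkS : Bool := allN 217 (fun s' => force (Nat.add s' 1) (fun s =>
  allN (Nat.div 217 s) (fun b' => force (Nat.add b' 1) (fun b =>
    allN (Nat.sub 217 (Nat.mul s b)) (fun k' => force (Nat.add k' 1) (fun k =>
      tst s b k (fun t _ => Nat.ble t 217) (fun t P R D => or (inL D) (wit t P R D))))))))

/-- `P = l` -/
def chkP (l : ℕ) : Bool := allN l (fun s' => force (Nat.add s' 1) (fun s =>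
  allN l (fun b' => force (Nat.add b' 1) (fun b => imp (Nat.ble (Nat.add (Nat.mul s b) 1) l)
    (tst s b (Nat.sub l (Nat.mul s b)) (fun _ D => Nat.ble 47524 D) wit)))))

theorem okS : chkS = true := by decide +kernel

/-- the primes used -/
def L9 : List ℕ := [2, 3, 5, 7, 13, 19, 37, 73, 109]

theorem okP : allL L9 chkP = true := by decide +kernel

end Pool.Agent.N863.EP
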