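import Pool.Agent.N863.EP.E4

/-! The remaining cases for odd `a`. -/

set_option autoImplicit false
set_option maxRecDepth 100000

namespace Pool.Agent.N863.EP

open H419R2
open Pool.Agent.N911 (imp cj allN allN_iff imp_true cj_true)
open Pool.Agent.N156.EP (RelM4 Good4 Par4)

theorem params {t P a b : ℤ} (h : Par4 t P a b) : ∃ s b' k a' : ℕ, 1 ≤ s ∧ 1 ≤ b' ∧ 1 ≤ k ∧
    1 ≤ a' ∧ a = a' ∧ b = b' ∧ b' + s = a' * k ∧ P = ((k + s * b' : ℕ) : ℤ) ∧
    t = ((s + a' * (k + s * b') : ℕ) : ℤ) ∧ 1 + a * t - a ^ 2 * P = ((1 + a' * s : ℕ) : ℤ) := by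
  obtain ⟨ht, hP, ha, hb, hR, con⟩ := h
  have hs : 0 < t - a * P := by
    have h1 : 0 < a * (t - a * P) := by nlinarith
    exact (mul_pos_iff_of_pos_left ha).mp h1
  have hk : a * (P - b * (t - a * P)) = b + (t - a * P) := by linear_combination -con
  have hk0 : 0 < P - b * (t - a * P) := by
    have h1 : 0 < a * (P - b * (t - a * P)) := by rw [hk]; linarith
    exact (mul_pos_iff_of_pos_left ha).mp h1
  obtain ⟨s, hs'⟩ := Int.eq_ofNat_of_zero_le hs.le
  obtain ⟨k, hk'⟩ := Int.eq_ofNat_of_zero_le hk0.le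
  obtain ⟨a', rfl⟩ := Int.eq_ofNat_of_zero_le ha.le
  obtain ⟨b', rfl⟩ := Int.eq_ofNat_of_zero_le hb.le
  have e1 : P = k + s * b' := by
    rw [← hk', hs']; ring
  refine ⟨s, b', k, a', by omega, by omega, by omega, by omega, rfl, rfl, ?_, ?_, ?_, ?_⟩
  · have : ((b' + s : ℕ) : ℤ) = ((a' * k : ℕ) : ℤ) := by
      push_cast
      rw [← hk', hs'] at *
      linarith [hk]
    exact_mod_cast this
  · rw [e1]; push_cast; ring
  · have : t = s + a' * P := by linarith [hs']
    rw [this, e1]; push_cast; ring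
  · have : t = s + a' * P := by linarith [hs']
    rw [this]; push_cast; ring

theorem tst_sound {s b k a : ℕ} (hk : 1 ≤ k) (hab : b + s = a * k) {ok : ℕ → ℕ → Bool}
    {c : ℕ → ℕ → ℕ → ℕ → Bool} (h : tst s b k ok c = true)
    (hto : (s + a * (k + s * b)) % 2 = 1)
    (hok : ok (s + a * (k + s * b)) ((s + a * (k + s * b)) * (s + a * (k + s * b)) +
      4 * (k + s * b)) = true) :
    c (s + a * (k + s * b)) (k + s * b) (1 + a * s) ((s + a * (k + s * b)) *
      (s + a * (k + s * b)) + 4 * (k + s * b)) = true := by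
  unfold tst at h
  simp only [force_eq] at h
  have h1 : Nat.mod (Nat.add b s) k = 0 := by
    change (b + s) % k = 0
    rw [hab]; exact Nat.mul_mod_left _ _
  have h2 : Nat.div (Nat.add b s) k = a := by
    change (b + s) / k = a
    rw [hab]; exact Nat.mul_div_cancel _ (by omega)
  rw [h1, h2] at h
  have h3 := imp_true h rfl
  have h4 := imp_true h3 (by
    change Nat.beq ((s + a * (k + s * b)) % 2) 1 = true
    rw [hto]; rfl)
  exact imp_true h4 hok

/-- small discriminants -/
theorem small_case {t P a b : ℤ} {D : ℕ} (G : Good4 t P a b D) (hpar : Par4 t P a b)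
    (hto : t % 2 = 1) (hD : D < 47524) : D ∈ Fin13 := by
  obtain ⟨s, b', k, a', hs, hb, hk, ha, rfl, rfl, hab, hP, ht, hR⟩ := params hpar
  set Pn := k + s * b' with hPn
  set tn := s + a' * Pn with htn
  have hDn : D = tn * tn + 4 * Pn := by
    have := G.hD
    rw [hP, ht] at this
    have h2 : (D : ℤ) = ((tn * tn + 4 * Pn : ℕ) : ℤ) := by rw [this]; push_cast; ring
    exact_mod_cast h2
  have hton : tn % 2 = 1 := by
    rw [ht] at hto; exact_mod_cast hto
  have ht217 : tn ≤ 217 := by
    by_contra hcon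
    have h1 : 218 ≤ tn := by omega
    have h2 : 218 * 218 ≤ tn * tn := Nat.mul_le_mul h1 h1
    omega
  have hPt : Pn + s ≤ tn := by
    rw [htn]
    have : 1 * Pn ≤ a' * Pn := Nat.mul_le_mul_right _ ha
    omega
  have h := okS
  unfold chkS at h
  rw [allN_iff] at h
  have h1 := h (s - 1) (by omega)
  rw [force_eq] at h1
  have e1 : Nat.add (s - 1) 1 = s := by change s - 1 + 1 = s; omega
  rw [e1, allN_iff] at h1
  have hsb : s * b' ≤ 217 := by omega
  have h2 := h1 (b' - 1) (by
    have h3 : b' ≤ 217 / s := (Nat.le_div_iff_mul_le (by omega)).mpr (by rw [mul_comm]; exact hsb)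
    change b' - 1 < 217 / s
    omega)
  rw [force_eq] at h2
  have e2 : Nat.add (b' - 1) 1 = b' := by change b' - 1 + 1 = b'; omega
  rw [e2, allN_iff] at h2
  have h3 := h2 (k - 1) (by
    change k - 1 < 217 - s * b'
    omega)
  rw [force_eq] at h3
  have e3 : Nat.add (k - 1) 1 = k := by change k - 1 + 1 = k; omega
  rw [e3] at h3
  have h4 := tst_sound hk hab h3 hton (by
    change Nat.ble tn 217 = true
    exact Nat.ble_eq_true_of_le ht217)
  change or (inL (tn * tn + 4 * Pn)) (wit tn Pn (1 + a' * s) (tn * tn + 4 * Pn)) = true at h4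
  rw [Bool.or_eq_true] at h4
  rw [← hDn] at h4
  rcases h4 with h5 | h5
  · exact inL_sound h5
  · exfalso
    have G' : Good4 (tn : ℤ) (Pn : ℤ) a' b' D := by rw [← ht, ← hP]; exact G
    exact wit_sound G' (by rw [← hR, ht, hP]) h5

/-- `P = l` does not happen -/
theorem P_ne {t P a b : ℤ} {D : ℕ} (G : Good4 t P a b D) (hpar : Par4 t P a b)
    (hto : t % 2 = 1) (hD : 47524 ≤ D) {l : ℕ} (hl : l ∈ L9) : (l : ℤ) ≠ P := by
  intro hlP
  obtain ⟨s, b', k, a', hs, hb, hk, ha, rfl, rfl, hab, hP, ht, hR⟩ := params hpar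
  set Pn := k + s * b' with hPn
  set tn := s + a' * Pn with htn
  have hlP' : l = Pn := by
    rw [hP] at hlP; exact_mod_cast hlP
  have hDn : D = tn * tn + 4 * Pn := by
    have := G.hD
    rw [hP, ht] at this
    have h2 : (D : ℤ) = ((tn * tn + 4 * Pn : ℕ) : ℤ) := by rw [this]; push_cast; ring
    exact_mod_cast h2
  have hton : tn % 2 = 1 := by
    rw [ht] at hto; exact_mod_cast hto
  have h := okP
  rw [allL_iff] at h
  have h0 := h l hl
  unfold chkP at h0
  rw [allN_iff] at h0
  have hsl : s < l := by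
    rw [hlP', hPn]
    have : s * 1 ≤ s * b' := Nat.mul_le_mul_left _ hb
    omega
  have hbl : b' < l := by
    rw [hlP', hPn]
    have : 1 * b' ≤ s * b' := Nat.mul_le_mul_right _ hs
    omega
  have h1 := h0 (s - 1) (by omega)
  rw [force_eq] at h1
  have e1 : Nat.add (s - 1) 1 = s := by change s - 1 + 1 = s; omega
  rw [e1, allN_iff] at h1
  have h2 := h1 (b' - 1) (by omega)
  rw [force_eq] at h2
  have e2 : Nat.add (b' - 1) 1 = b' := by change b' - 1 + 1 = b'; omega
  rw [e2] at h2
  have h3 := imp_true h2 (by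
    change Nat.ble (s * b' + 1) l = true
    exact Nat.ble_eq_true_of_le (by omega))
  have e3 : Nat.sub l (Nat.mul s b') = k := by
    change l - s * b' = k
    omega
  rw [e3] at h3
  have h4 := tst_sound hk hab h3 hton (by
    change Nat.ble 47524 (tn * tn + 4 * Pn) = true
    rw [← hDn]
    exact Nat.ble_eq_true_of_le hD)
  change wit tn Pn (1 + a' * s) (tn * tn + 4 * Pn) = true at h4
  rw [← hDn] at h4
  have G' : Good4 (tn : ℤ) (Pn : ℤ) a' b' D := by rw [← ht, ← hP]; exact G
  exact wit_sound G' (by rw [← hR, ht, hP]) h4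

/-- a prime of the list is inert or equal to the second norm -/
theorem inert_or {t P a b : ℤ} {D : ℕ} (G : Good4 t P a b D) (hpar : Par4 t P a b)
    (hto : t % 2 = 1) (hD : 47524 ≤ D) {l : ℕ} (hl : l ∈ [3, 5, 7, 13, 19, 37, 73, 109]) :
    ¬ IsSquare ((D : ℕ) : ZMod l) ∨ (l : ℤ) = 1 + a * t - a ^ 2 * P := by
  by_cases hs : IsSquare ((D : ℕ) : ZMod l)
  · right
    have hp : l.Prime ∧ l ≠ 2 ∧ l ≤ 109 ∧ l ∈ L9 := by
      have : ∀ l ∈ [3, 5, 7, 13, 19, 37, 73, 109], l.Prime ∧ l ≠ 2 ∧ l ≤ 109 ∧ l ∈ L9 := by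
        unfold L9
        simp only [List.mem_cons, List.not_mem_nil, or_false, forall_eq_or_imp, forall_eq]
        norm_num
      exact this l hl
    obtain ⟨h1, h2, h3, h4⟩ := hp
    obtain ⟨w, hw⟩ := root_of_square (R := P) (m := t) h1 h2 G.hD (by simpa using hs)
    rcases G.split l h1 (by
      have h5 : l * l ≤ 109 * 109 := Nat.mul_le_mul h3 h3
      have h6 : 4 * (l * l) ≤ D := by omega
      have h7 : (4 * (l * l) : ℤ) ≤ D := by exact_mod_cast h6
      linarith) ⟨w, hw⟩ with h | h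
    · exact absurd h (P_ne G hpar hto hD h4)
    · exact h
  · left; exact hs

/-- the reduction to inert primes, for odd `a` and `R ≡ 3 (mod 4)` -/
theorem reduce {t P a b : ℤ} {D : ℕ} (G : Good4 t P a b D) (hpar : Par4 t P a b)
    (hto : t % 2 = 1) (hao : a % 2 = 1) (hR4 : (1 + a * t - a ^ 2 * P) % 4 = 3) :
    D ∈ Fin13 ∨ (P % 2 = 1 ∧ Inert D [3, 5, 7, 13, 19, 37, 73]) := by
  by_cases hD : D < 47524
  · exact Or.inl (small_case G hpar hto hD)
  push Not at hD
  right
  -- `P` is odd since `R` is odd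
  have hPo : P % 2 = 1 := by
    rcases Int.emod_two_eq_zero_or_one P with h | h
    · exfalso
      obtain ⟨x, hx⟩ : ∃ x, P = 2 * x := ⟨P / 2, by omega⟩
      obtain ⟨y, hy⟩ : ∃ y, t = 2 * y + 1 := ⟨t / 2, by omega⟩
      obtain ⟨z, hz⟩ : ∃ z, a = 2 * z + 1 := ⟨a / 2, by omega⟩
      have : (1 + a * t - a ^ 2 * P) = 2 * (1 + 2 * z * y + z + y - a ^ 2 * x) := by
        rw [hx, hy, hz]; ring
      omega
    · exact h
  refine ⟨hPo, ?_⟩
  have hD2 : Nat.Coprime 2 D := by
    rw [Nat.coprime_two_left]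
    have h1 : (D : ℤ) % 2 = 1 := by
      rw [G.hD]
      obtain ⟨y, hy⟩ : ∃ y, t = 2 * y + 1 := ⟨t / 2, by omega⟩
      have : t ^ 2 + 4 * P = 2 * (2 * y ^ 2 + 2 * y + 2 * P) + 1 := by rw [hy]; ring
      omega
    rw [Nat.odd_iff]
    exact_mod_cast h1
  have key : ∀ l ∈ [3, 5, 7, 13, 19, 37, 73, 109], ¬ IsSquare ((D : ℕ) : ZMod l) ∨
      (l : ℤ) = 1 + a * t - a ^ 2 * P := fun l hl => inert_or G hpar hto hD hl
  obtain ⟨s, b', k, a', hs, hb, hk, ha, rfl, rfl, hab, hP, ht, hR⟩ := params hpar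
  have others : ∀ r : ℕ, (r : ℤ) = 1 + (a' : ℤ) * t - (a' : ℤ) ^ 2 * P →
      ∀ l ∈ [3, 5, 7, 13, 19, 37, 73, 109], l ≠ r → ¬ IsSquare ((D : ℕ) : ZMod l) := by
    intro r hr l hl hlr
    rcases key l hl with h | h
    · exact h
    · exfalso
      rw [← hr] at h
      exact hlr (by exact_mod_cast h)
  intro l hl
  have hl' : l ∈ [3, 5, 7, 13, 19, 37, 73, 109] := by
    simp only [List.mem_cons, List.not_mem_nil, or_false] at hl ⊢
    tauto
  rcases key l hl' with h | h
  · exact h
  · exfalso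
    have oth := others l h
    have has : l = 1 + a' * s := by
      have := h.trans hR
      exact_mod_cast this
    have h4 : l % 4 = 3 := by
      rw [← h] at hR4
      exact_mod_cast hR4
    have hao' : a' % 2 = 1 := by exact_mod_cast hao
    simp only [List.mem_cons, List.not_mem_nil, or_false] at hl
    rcases hl with rfl | rfl | rfl | rfl | rfl | rfl | rfl
    · -- `3`
      have h5 : a' * s = 2 := by omega
      have h6 : a' ∣ 2 := ⟨s, h5.symm⟩
      have h7 : a' ≤ 2 := Nat.le_of_dvd (by norm_num) h6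
      have h8 : a' = 1 := by interval_cases a' <;> omega
      subst h8
      exact fam3 G (by rw [← h]; rfl) hto hPo hD2 (fun l hl => oth l (by
        simp only [List.mem_cons, List.not_mem_nil, or_false] at hl ⊢; tauto) (by
        rintro rfl; simp at hl))
    · omega
    · -- `7`
      have h5 : a' * s = 6 := by omega
      have h6 : a' ∣ 6 := ⟨s, h5.symm⟩
      have h7 : a' ≤ 6 := Nat.le_of_dvd (by norm_num) h6
      have h8 : a' = 1 ∨ a' = 3 := by interval_cases a' <;> omega
      rcases h8 with rfl | rfl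
      · exact fam7a G (by rw [← h]; rfl) hto hPo hD2 (fun l hl => oth l (by
          simp only [List.mem_cons, List.not_mem_nil, or_false] at hl ⊢; tauto) (by
          rintro rfl; simp at hl))
      · exact fam7b G (by rw [← h]; rfl) hto hPo hD2 (fun l hl => oth l (by
          simp only [List.mem_cons, List.not_mem_nil, or_false] at hl ⊢; tauto) (by
          rintro rfl; simp at hl))
    · omega
    · -- `19`
      have h5 : a' * s = 18 := by omega
      have h6 : a' ∣ 18 := ⟨s, h5.symm⟩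
      have h7 : a' ≤ 18 := Nat.le_of_dvd (by norm_num) h6
      have h8 : a' = 1 ∨ a' = 3 ∨ a' = 9 := by interval_cases a' <;> omega
      rcases h8 with rfl | rfl | rfl
      · exact fam19a G (by rw [← h]; rfl) hto hPo hD2 (fun l hl => oth l (by
          simp only [List.mem_cons, List.not_mem_nil, or_false] at hl ⊢; tauto) (by
          rintro rfl; simp at hl))
      · exact fam19b G (by rw [← h]; rfl) hto hPo hD2 (fun l hl => oth l (by
          simp only [List.mem_cons, List.not_mem_nil, or_false] at hl ⊢; tauto) (by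
          rintro rfl; simp at hl))
      · exact fam19c G (by rw [← h]; rfl) hto hPo hD2 (fun l hl => oth l (by
          simp only [List.mem_cons, List.not_mem_nil, or_false] at hl ⊢; tauto) (by
          rintro rfl; simp at hl))
    · omega
    · omega

end Pool.Agent.N863.EP
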