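import Pool.Agent.N863.EP.E5

/-! The one-parameter families with even `a`, and the reduction to inert primes for even `a`. -/

set_option autoImplicit false
set_option maxRecDepth 100000

namespace Pool.Agent.N863.EP

open H419R2
open Pool.Agent.N911 (c259_19_2 c259_19_2_ok)
open Pool.Agent.N156.EP (RelM4 Good4 Par4)

def ste3 : List (ℕ × List (CD × Bool)) :=
  [(4, []), (37, [(c148_19, false)]), (7, [(c259_19_2, false)]), (5, [(c140_13, false)]), (19, [(c133_37, true)]), (13, [(c133_13, true)])]

def ste7a : List (ℕ × List (CD × Bool)) :=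
  [(4, []), (37, [(c148_19, false)]), (5, []), (19, []), (3, [(c111_19_0, true)])]

def ste7b : List (ℕ × List (CD × Bool)) :=
  [(4, []), (37, [(c148_19, false)]), (5, []), (19, []), (3, [(c111_19_1, true)])]

def ste19a : List (ℕ × List (CD × Bool)) :=
  [(4, []), (37, [(c148_7, false)]), (7, []), (5, [(c140_13, false)]), (3, []), (13, [(c105_13, true), (c185_13, true)])]

def ste19b : List (ℕ × List (CD × Bool)) :=
  [(4, []), (37, [(c148_7, false)]), (7, []), (5, [(c140_13, false)]), (3, []), (13, [(c105_13, true), (c91_37, true)])]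

def ste19c : List (ℕ × List (CD × Bool)) :=
  [(4, []), (37, [(c148_7, false)]), (7, []), (5, [(c140_13, false)]), (3, []), (13, [(c105_13, true), (c91_37, true)])]

theorem rune3 : go 2 1 3 ste3 2 0 = true := by decide +kernel
theorem rune7a : go 2 3 7 ste7a 2 0 = true := by decide +kernel
theorem rune7b : go 6 1 7 ste7b 2 0 = true := by decide +kernel
theorem rune19a : go 2 9 19 ste19a 2 0 = true := by decide +kernel
theorem rune19b : go 6 3 19 ste19b 2 0 = true := by decide +kernel
theorem rune19c : go 18 1 19 ste19c 2 0 = true := by decide +kernel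

section

variable {t P b : ℤ} {D : ℕ}

/-- `l = 3`, `a = 2` -/
theorem fame3 (G : Good4 t P ((2 : ℕ) : ℤ) b D)
    (hR : 1 + ((2 : ℕ) : ℤ) * t - ((2 : ℕ) : ℤ) ^ 2 * P = 3)
    (hto : t % 2 = 1) (hPo : P % 2 = 1) (hD2 : Nat.Coprime 2 D)
    (hI : Inert D [37, 7, 5, 19, 13]) : False := by
  obtain ⟨k, h1, h2, h3⟩ := k_exists (a := 2) (s := 1) (l := 3) rfl (by norm_num)
    (by exact_mod_cast hR) G.con
  have i37 := hI 37 (by simp)
  have i7 := hI 7 (by simp)
  have i5 := hI 5 (by simp)
  have i19 := hI 19 (by simp)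
  have i13 := hI 13 (by simp)
  have hco : Nat.Coprime (4 * 37 * 7 * 5 * 19 * 13) D := by
    have h4 : Nat.Coprime 4 D := Nat.Coprime.mul_left hD2 hD2
    exact ((((h4.mul_left (coprime_of_inert (by norm_num) i37)).mul_left (coprime_of_inert (by norm_num) i7)).mul_left (coprime_of_inert (by norm_num) i5)).mul_left (coprime_of_inert (by norm_num) i19)).mul_left (coprime_of_inert (by norm_num) i13)
  have hk2 : ((2 : ℕ) : ℤ) ∣ ((0 : ℕ) : ℤ) - k := by
    have h5 : P = k * 3 - 1 ^ 2 := by exact_mod_cast h1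
    omega
  refine go_sound (a := 2) (s := 1) (l := 3) (k := k) (t := t) (P := P) (b := b) (by norm_num)
    (by norm_num) rfl (by exact_mod_cast h1) (by exact_mod_cast h2) (by exact_mod_cast h3) hto ste3
    (M := 2) (k0 := 0) two_pos hk2 ?_ rune3
  refine ⟨by norm_num, Or.inl rfl, by intro c hc; simp at hc, ?_⟩
  refine ⟨by norm_num, Or.inr ⟨by norm_num, by norm_num, notsq G i37⟩, ?_, ?_⟩
  · intro c hc
    rw [List.mem_singleton] at hc; subst hc
    exact ⟨rel_of_coprime G hPo hco c148_19_ok (by decide +kernel) (by decide +kernel),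
      by decide +kernel, by intro h; cases h⟩
  refine ⟨by norm_num, Or.inr ⟨by norm_num, by norm_num, notsq G i7⟩, ?_, ?_⟩
  · intro c hc
    rw [List.mem_singleton] at hc; subst hc
    exact ⟨rel_of_coprime G hPo hco c259_19_2_ok (by decide +kernel) (by decide +kernel),
      by decide +kernel, by intro h; cases h⟩
  refine ⟨by norm_num, Or.inr ⟨by norm_num, by norm_num, notsq G i5⟩, ?_, ?_⟩
  · intro c hc
    rw [List.mem_singleton] at hc; subst hc
    exact ⟨rel_of_coprime G hPo hco c140_13_ok (by decide +kernel) (by decide +kernel),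
      by decide +kernel, by intro h; cases h⟩
  refine ⟨by norm_num, Or.inr ⟨by norm_num, by norm_num, notsq G i19⟩, ?_, ?_⟩
  · intro c hc
    rw [List.mem_singleton] at hc; subst hc
    exact ⟨rel_of_coprime G hPo hco c133_37_ok (by decide +kernel) (by decide +kernel),
      by decide +kernel, fun _ => by decide +kernel⟩
  refine ⟨by norm_num, Or.inr ⟨by norm_num, by norm_num, notsq G i13⟩, ?_, trivial⟩
  · intro c hc
    rw [List.mem_singleton] at hc; subst hc
    exact ⟨rel_of_coprime G hPo hco c133_13_ok (by decide +kernel) (by decide +kernel),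
      by decide +kernel, fun _ => by decide +kernel⟩

/-- `l = 7`, `a = 2` -/
theorem fame7a (G : Good4 t P ((2 : ℕ) : ℤ) b D)
    (hR : 1 + ((2 : ℕ) : ℤ) * t - ((2 : ℕ) : ℤ) ^ 2 * P = 7)
    (hto : t % 2 = 1) (hPo : P % 2 = 1) (hD2 : Nat.Coprime 2 D)
    (hI : Inert D [37, 5, 19, 3]) : False := by
  obtain ⟨k, h1, h2, h3⟩ := k_exists (a := 2) (s := 3) (l := 7) rfl (by norm_num)
    (by exact_mod_cast hR) G.con
  have i37 := hI 37 (by simp)
  have i5 := hI 5 (by simp)
  have i19 := hI 19 (by simp)
  have i3 := hI 3 (by simp)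
  have hco : Nat.Coprime (4 * 37 * 5 * 19 * 3) D := by
    have h4 : Nat.Coprime 4 D := Nat.Coprime.mul_left hD2 hD2
    exact (((h4.mul_left (coprime_of_inert (by norm_num) i37)).mul_left (coprime_of_inert (by norm_num) i5)).mul_left (coprime_of_inert (by norm_num) i19)).mul_left (coprime_of_inert (by norm_num) i3)
  have hk2 : ((2 : ℕ) : ℤ) ∣ ((0 : ℕ) : ℤ) - k := by
    have h5 : P = k * 7 - 3 ^ 2 := by exact_mod_cast h1
    omega
  refine go_sound (a := 2) (s := 3) (l := 7) (k := k) (t := t) (P := P) (b := b) (by norm_num)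
    (by norm_num) rfl (by exact_mod_cast h1) (by exact_mod_cast h2) (by exact_mod_cast h3) hto ste7a
    (M := 2) (k0 := 0) two_pos hk2 ?_ rune7a
  refine ⟨by norm_num, Or.inl rfl, by intro c hc; simp at hc, ?_⟩
  refine ⟨by norm_num, Or.inr ⟨by norm_num, by norm_num, notsq G i37⟩, ?_, ?_⟩
  · intro c hc
    rw [List.mem_singleton] at hc; subst hc
    exact ⟨rel_of_coprime G hPo hco c148_19_ok (by decide +kernel) (by decide +kernel),
      by decide +kernel, by intro h; cases h⟩
  refine ⟨by norm_num, Or.inr ⟨by norm_num, by norm_num, notsq G i5⟩, by intro c hc; simp at hc, ?_⟩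
  refine ⟨by norm_num, Or.inr ⟨by norm_num, by norm_num, notsq G i19⟩, by intro c hc; simp at hc, ?_⟩
  refine ⟨by norm_num, Or.inr ⟨by norm_num, by norm_num, notsq G i3⟩, ?_, trivial⟩
  · intro c hc
    rw [List.mem_singleton] at hc; subst hc
    exact ⟨rel_of_coprime G hPo hco c111_19_0_ok (by decide +kernel) (by decide +kernel),
      by decide +kernel, fun _ => by decide +kernel⟩

/-- `l = 7`, `a = 6` -/
theorem fame7b (G : Good4 t P ((6 : ℕ) : ℤ) b D)
    (hR : 1 + ((6 : ℕ) : ℤ) * t - ((6 : ℕ) : ℤ) ^ 2 * P = 7)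
    (hto : t % 2 = 1) (hPo : P % 2 = 1) (hD2 : Nat.Coprime 2 D)
    (hI : Inert D [37, 5, 19, 3]) : False := by
  obtain ⟨k, h1, h2, h3⟩ := k_exists (a := 6) (s := 1) (l := 7) rfl (by norm_num)
    (by exact_mod_cast hR) G.con
  have i37 := hI 37 (by simp)
  have i5 := hI 5 (by simp)
  have i19 := hI 19 (by simp)
  have i3 := hI 3 (by simp)
  have hco : Nat.Coprime (4 * 37 * 5 * 19 * 3) D := by
    have h4 : Nat.Coprime 4 D := Nat.Coprime.mul_left hD2 hD2
    exact (((h4.mul_left (coprime_of_inert (by norm_num) i37)).mul_left (coprime_of_inert (by norm_num) i5)).mul_left (coprime_of_inert (by norm_num) i19)).mul_left (coprime_of_inert (by norm_num) i3)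
  have hk2 : ((2 : ℕ) : ℤ) ∣ ((0 : ℕ) : ℤ) - k := by
    have h5 : P = k * 7 - 1 ^ 2 := by exact_mod_cast h1
    omega
  refine go_sound (a := 6) (s := 1) (l := 7) (k := k) (t := t) (P := P) (b := b) (by norm_num)
    (by norm_num) rfl (by exact_mod_cast h1) (by exact_mod_cast h2) (by exact_mod_cast h3) hto ste7b
    (M := 2) (k0 := 0) two_pos hk2 ?_ rune7b
  refine ⟨by norm_num, Or.inl rfl, by intro c hc; simp at hc, ?_⟩
  refine ⟨by norm_num, Or.inr ⟨by norm_num, by norm_num, notsq G i37⟩, ?_, ?_⟩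
  · intro c hc
    rw [List.mem_singleton] at hc; subst hc
    exact ⟨rel_of_coprime G hPo hco c148_19_ok (by decide +kernel) (by decide +kernel),
      by decide +kernel, by intro h; cases h⟩
  refine ⟨by norm_num, Or.inr ⟨by norm_num, by norm_num, notsq G i5⟩, by intro c hc; simp at hc, ?_⟩
  refine ⟨by norm_num, Or.inr ⟨by norm_num, by norm_num, notsq G i19⟩, by intro c hc; simp at hc, ?_⟩
  refine ⟨by norm_num, Or.inr ⟨by norm_num, by norm_num, notsq G i3⟩, ?_, trivial⟩
  · intro c hc
    rw [List.mem_singleton] at hc; subst hc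
    exact ⟨rel_of_coprime G hPo hco c111_19_1_ok (by decide +kernel) (by decide +kernel),
      by decide +kernel, fun _ => by decide +kernel⟩

/-- `l = 19`, `a = 2` -/
theorem fame19a (G : Good4 t P ((2 : ℕ) : ℤ) b D)
    (hR : 1 + ((2 : ℕ) : ℤ) * t - ((2 : ℕ) : ℤ) ^ 2 * P = 19)
    (hto : t % 2 = 1) (hPo : P % 2 = 1) (hD2 : Nat.Coprime 2 D)
    (hI : Inert D [37, 7, 5, 3, 13]) : False := by
  obtain ⟨k, h1, h2, h3⟩ := k_exists (a := 2) (s := 9) (l := 19) rfl (by norm_num)
    (by exact_mod_cast hR) G.con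
  have i37 := hI 37 (by simp)
  have i7 := hI 7 (by simp)
  have i5 := hI 5 (by simp)
  have i3 := hI 3 (by simp)
  have i13 := hI 13 (by simp)
  have hco : Nat.Coprime (4 * 37 * 7 * 5 * 3 * 13) D := by
    have h4 : Nat.Coprime 4 D := Nat.Coprime.mul_left hD2 hD2
    exact ((((h4.mul_left (coprime_of_inert (by norm_num) i37)).mul_left (coprime_of_inert (by norm_num) i7)).mul_left (coprime_of_inert (by norm_num) i5)).mul_left (coprime_of_inert (by norm_num) i3)).mul_left (coprime_of_inert (by norm_num) i13)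
  have hk2 : ((2 : ℕ) : ℤ) ∣ ((0 : ℕ) : ℤ) - k := by
    have h5 : P = k * 19 - 9 ^ 2 := by exact_mod_cast h1
    omega
  refine go_sound (a := 2) (s := 9) (l := 19) (k := k) (t := t) (P := P) (b := b) (by norm_num)
    (by norm_num) rfl (by exact_mod_cast h1) (by exact_mod_cast h2) (by exact_mod_cast h3) hto ste19a
    (M := 2) (k0 := 0) two_pos hk2 ?_ rune19a
  refine ⟨by norm_num, Or.inl rfl, by intro c hc; simp at hc, ?_⟩
  refine ⟨by norm_num, Or.inr ⟨by norm_num, by norm_num, notsq G i37⟩, ?_, ?_⟩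
  · intro c hc
    rw [List.mem_singleton] at hc; subst hc
    exact ⟨rel_of_coprime G hPo hco c148_7_ok (by decide +kernel) (by decide +kernel),
      by decide +kernel, by intro h; cases h⟩
  refine ⟨by norm_num, Or.inr ⟨by norm_num, by norm_num, notsq G i7⟩, by intro c hc; simp at hc, ?_⟩
  refine ⟨by norm_num, Or.inr ⟨by norm_num, by norm_num, notsq G i5⟩, ?_, ?_⟩
  · intro c hc
    rw [List.mem_singleton] at hc; subst hc
    exact ⟨rel_of_coprime G hPo hco c140_13_ok (by decide +kernel) (by decide +kernel),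
      by decide +kernel, by intro h; cases h⟩
  refine ⟨by norm_num, Or.inr ⟨by norm_num, by norm_num, notsq G i3⟩, by intro c hc; simp at hc, ?_⟩
  refine ⟨by norm_num, Or.inr ⟨by norm_num, by norm_num, notsq G i13⟩, ?_, trivial⟩
  · intro c hc
    rw [List.mem_cons, List.mem_singleton] at hc
    rcases hc with rfl | rfl
    · exact ⟨rel_of_coprime G hPo hco c105_13_ok (by decide +kernel) (by decide +kernel),
      by decide +kernel, fun _ => by decide +kernel⟩
    · exact ⟨rel_of_coprime G hPo hco c185_13_ok (by decide +kernel) (by decide +kernel),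
      by decide +kernel, fun _ => by decide +kernel⟩

/-- `l = 19`, `a = 6` -/
theorem fame19b (G : Good4 t P ((6 : ℕ) : ℤ) b D)
    (hR : 1 + ((6 : ℕ) : ℤ) * t - ((6 : ℕ) : ℤ) ^ 2 * P = 19)
    (hto : t % 2 = 1) (hPo : P % 2 = 1) (hD2 : Nat.Coprime 2 D)
    (hI : Inert D [37, 7, 5, 3, 13]) : False := by
  obtain ⟨k, h1, h2, h3⟩ := k_exists (a := 6) (s := 3) (l := 19) rfl (by norm_num)
    (by exact_mod_cast hR) G.con
  have i37 := hI 37 (by simp)
  have i7 := hI 7 (by simp)
  have i5 := hI 5 (by simp)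
  have i3 := hI 3 (by simp)
  have i13 := hI 13 (by simp)
  have hco : Nat.Coprime (4 * 37 * 7 * 5 * 3 * 13) D := by
    have h4 : Nat.Coprime 4 D := Nat.Coprime.mul_left hD2 hD2
    exact ((((h4.mul_left (coprime_of_inert (by norm_num) i37)).mul_left (coprime_of_inert (by norm_num) i7)).mul_left (coprime_of_inert (by norm_num) i5)).mul_left (coprime_of_inert (by norm_num) i3)).mul_left (coprime_of_inert (by norm_num) i13)
  have hk2 : ((2 : ℕ) : ℤ) ∣ ((0 : ℕ) : ℤ) - k := by
    have h5 : P = k * 19 - 3 ^ 2 := by exact_mod_cast h1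
    omega
  refine go_sound (a := 6) (s := 3) (l := 19) (k := k) (t := t) (P := P) (b := b) (by norm_num)
    (by norm_num) rfl (by exact_mod_cast h1) (by exact_mod_cast h2) (by exact_mod_cast h3) hto ste19b
    (M := 2) (k0 := 0) two_pos hk2 ?_ rune19b
  refine ⟨by norm_num, Or.inl rfl, by intro c hc; simp at hc, ?_⟩
  refine ⟨by norm_num, Or.inr ⟨by norm_num, by norm_num, notsq G i37⟩, ?_, ?_⟩
  · intro c hc
    rw [List.mem_singleton] at hc; subst hc
    exact ⟨rel_of_coprime G hPo hco c148_7_ok (by decide +kernel) (by decide +kernel),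
      by decide +kernel, by intro h; cases h⟩
  refine ⟨by norm_num, Or.inr ⟨by norm_num, by norm_num, notsq G i7⟩, by intro c hc; simp at hc, ?_⟩
  refine ⟨by norm_num, Or.inr ⟨by norm_num, by norm_num, notsq G i5⟩, ?_, ?_⟩
  · intro c hc
    rw [List.mem_singleton] at hc; subst hc
    exact ⟨rel_of_coprime G hPo hco c140_13_ok (by decide +kernel) (by decide +kernel),
      by decide +kernel, by intro h; cases h⟩
  refine ⟨by norm_num, Or.inr ⟨by norm_num, by norm_num, notsq G i3⟩, by intro c hc; simp at hc, ?_⟩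
  refine ⟨by norm_num, Or.inr ⟨by norm_num, by norm_num, notsq G i13⟩, ?_, trivial⟩
  · intro c hc
    rw [List.mem_cons, List.mem_singleton] at hc
    rcases hc with rfl | rfl
    · exact ⟨rel_of_coprime G hPo hco c105_13_ok (by decide +kernel) (by decide +kernel),
      by decide +kernel, fun _ => by decide +kernel⟩
    · exact ⟨rel_of_coprime G hPo hco c91_37_ok (by decide +kernel) (by decide +kernel),
      by decide +kernel, fun _ => by decide +kernel⟩

/-- `l = 19`, `a = 18` -/
theorem fame19c (G : Good4 t P ((18 : ℕ) : ℤ) b D)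
    (hR : 1 + ((18 : ℕ) : ℤ) * t - ((18 : ℕ) : ℤ) ^ 2 * P = 19)
    (hto : t % 2 = 1) (hPo : P % 2 = 1) (hD2 : Nat.Coprime 2 D)
    (hI : Inert D [37, 7, 5, 3, 13]) : False := by
  obtain ⟨k, h1, h2, h3⟩ := k_exists (a := 18) (s := 1) (l := 19) rfl (by norm_num)
    (by exact_mod_cast hR) G.con
  have i37 := hI 37 (by simp)
  have i7 := hI 7 (by simp)
  have i5 := hI 5 (by simp)
  have i3 := hI 3 (by simp)
  have i13 := hI 13 (by simp)
  have hco : Nat.Coprime (4 * 37 * 7 * 5 * 3 * 13) D := by
    have h4 : Nat.Coprime 4 D := Nat.Coprime.mul_left hD2 hD2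
    exact ((((h4.mul_left (coprime_of_inert (by norm_num) i37)).mul_left (coprime_of_inert (by norm_num) i7)).mul_left (coprime_of_inert (by norm_num) i5)).mul_left (coprime_of_inert (by norm_num) i3)).mul_left (coprime_of_inert (by norm_num) i13)
  have hk2 : ((2 : ℕ) : ℤ) ∣ ((0 : ℕ) : ℤ) - k := by
    have h5 : P = k * 19 - 1 ^ 2 := by exact_mod_cast h1
    omega
  refine go_sound (a := 18) (s := 1) (l := 19) (k := k) (t := t) (P := P) (b := b) (by norm_num)
    (by norm_num) rfl (by exact_mod_cast h1) (by exact_mod_cast h2) (by exact_mod_cast h3) hto ste19c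
    (M := 2) (k0 := 0) two_pos hk2 ?_ rune19c
  refine ⟨by norm_num, Or.inl rfl, by intro c hc; simp at hc, ?_⟩
  refine ⟨by norm_num, Or.inr ⟨by norm_num, by norm_num, notsq G i37⟩, ?_, ?_⟩
  · intro c hc
    rw [List.mem_singleton] at hc; subst hc
    exact ⟨rel_of_coprime G hPo hco c148_7_ok (by decide +kernel) (by decide +kernel),
      by decide +kernel, by intro h; cases h⟩
  refine ⟨by norm_num, Or.inr ⟨by norm_num, by norm_num, notsq G i7⟩, by intro c hc; simp at hc, ?_⟩
  refine ⟨by norm_num, Or.inr ⟨by norm_num, by norm_num, notsq G i5⟩, ?_, ?_⟩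
  · intro c hc
    rw [List.mem_singleton] at hc; subst hc
    exact ⟨rel_of_coprime G hPo hco c140_13_ok (by decide +kernel) (by decide +kernel),
      by decide +kernel, by intro h; cases h⟩
  refine ⟨by norm_num, Or.inr ⟨by norm_num, by norm_num, notsq G i3⟩, by intro c hc; simp at hc, ?_⟩
  refine ⟨by norm_num, Or.inr ⟨by norm_num, by norm_num, notsq G i13⟩, ?_, trivial⟩
  · intro c hc
    rw [List.mem_cons, List.mem_singleton] at hc
    rcases hc with rfl | rfl
    · exact ⟨rel_of_coprime G hPo hco c105_13_ok (by decide +kernel) (by decide +kernel),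
      by decide +kernel, fun _ => by decide +kernel⟩
    · exact ⟨rel_of_coprime G hPo hco c91_37_ok (by decide +kernel) (by decide +kernel),
      by decide +kernel, fun _ => by decide +kernel⟩

end

/-- the reduction to inert primes, for even `a` and `R ≡ 3 (mod 4)` -/
theorem reduce_even {t P a b : ℤ} {D : ℕ} (G : Good4 t P a b D) (hpar : Par4 t P a b)
    (hto : t % 2 = 1) (hae : a % 2 = 0) (hR4 : (1 + a * t - a ^ 2 * P) % 4 = 3) :
    D ∈ Fin13 ∨ (P % 2 = 1 ∧ Inert D [3, 5, 7, 13, 19, 37, 73]) := by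
  by_cases hD : D < 47524
  · exact Or.inl (small_case G hpar hto hD)
  push Not at hD
  right
  have hPo : P % 2 = 1 := by
    rcases Int.emod_two_eq_zero_or_one P with h | h
    · exfalso
      have h5 := G.split 2 Nat.prime_two (by push_cast; omega) ⟨0, by push_cast; omega⟩
      rcases h5 with h5 | h5
      · exact P_ne G hpar hto hD (l := 2) (by simp [L9]) h5
      · rw [← h5] at hR4
        omega
    · exact h
  refine ⟨hPo, ?_⟩
  have hD2 : Nat.Coprime 2 D := by
    rw [Nat.coprime_two_left]
    have h1 : (D : ℤ) % 2 = 1 := by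
      rw [G.hD]
      obtain ⟨y, hy⟩ : ∃ y, t = 2 * y + 1 := ⟨t / 2, by omega⟩
      have : t ^ 2 + 4 * P = 2 * (2 * y ^ 2 + 2 * y + 2 * P) + 1 := by rw [hy]; ring
      omega
    rw [Nat.odd_iff]
    exact_mod_cast h1
  have key : ∀ l ∈ [3, 5, 7, 13, 19, 37, 73, 109], ¬ IsSquare ((D : ℕ) : ZMod l) ∨
      (l : ℤ) = 1 + a * t - a ^ 2 * P := fun l hl => inert_or G hpar hto hD hl
  obtain ⟨s, b', k, a', hs, hb, hk, ha, rfl, rfl, hab, hP, ht, hR⟩ := params hpar
  have others : ∀ r : ℕ, (r : ℤ) = 1 + (a' : ℤ) * t - (a' : ℤ) ^ 2 * P →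
      ∀ l ∈ [3, 5, 7, 13, 19, 37, 73, 109], l ≠ r → ¬ IsSquare ((D : ℕ) : ZMod l) := by
    intro r hr l hl hlr
    rcases key l hl with h | h
    · exact h
    · exfalso
      rw [← hr] at h
      exact hlr (by exact_mod_cast h)
  intro l hl
  have hl' : l ∈ [3, 5, 7, 13, 19, 37, 73, 109] := by
    simp only [List.mem_cons, List.not_mem_nil, or_false] at hl ⊢
    tauto
  rcases key l hl' with h | h
  · exact h
  · exfalso
    have oth := others l h
    have has : l = 1 + a' * s := by
      have := h.trans hR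
      exact_mod_cast this
    have h4 : l % 4 = 3 := by
      rw [← h] at hR4
      exact_mod_cast hR4
    have hao' : a' % 2 = 0 := by exact_mod_cast hae
    -- `a' ≡ 2 (mod 4)`
    simp only [List.mem_cons, List.not_mem_nil, or_false] at hl
    rcases hl with rfl | rfl | rfl | rfl | rfl | rfl | rfl

    · -- `3`
      have h5 : a' * s = 2 := by omega
      have h6 : a' ∣ 2 := ⟨s, h5.symm⟩
      have h7 : a' ≤ 2 := Nat.le_of_dvd (by norm_num) h6
      have h8 : a' = 2 := by interval_cases a' <;> omega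
      subst h8
      exact fame3 G (by rw [← h]; rfl) hto hPo hD2 (fun l hl => oth l (by
          simp only [List.mem_cons, List.not_mem_nil, or_false] at hl ⊢; tauto) (by
          rintro rfl; simp at hl))
    · omega
    · -- `7`
      have h5 : a' * s = 6 := by omega
      have h6 : a' ∣ 6 := ⟨s, h5.symm⟩
      have h7 : a' ≤ 6 := Nat.le_of_dvd (by norm_num) h6
      have h8 : a' = 2 ∨ a' = 6 := by interval_cases a' <;> omega
      rcases h8 with rfl | rfl
      · exact fame7a G (by rw [← h]; rfl) hto hPo hD2 (fun l hl => oth l (by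
          simp only [List.mem_cons, List.not_mem_nil, or_false] at hl ⊢; tauto) (by
          rintro rfl; simp at hl))
      · exact fame7b G (by rw [← h]; rfl) hto hPo hD2 (fun l hl => oth l (by
          simp only [List.mem_cons, List.not_mem_nil, or_false] at hl ⊢; tauto) (by
          rintro rfl; simp at hl))
    · omega
    · -- `19`
      have h5 : a' * s = 18 := by omega
      have h6 : a' ∣ 18 := ⟨s, h5.symm⟩
      have h7 : a' ≤ 18 := Nat.le_of_dvd (by norm_num) h6
      have h8 : a' = 2 ∨ a' = 6 ∨ a' = 18 := by interval_cases a' <;> omega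
      rcases h8 with rfl | rfl | rfl
      · exact fame19a G (by rw [← h]; rfl) hto hPo hD2 (fun l hl => oth l (by
          simp only [List.mem_cons, List.not_mem_nil, or_false] at hl ⊢; tauto) (by
          rintro rfl; simp at hl))
      · exact fame19b G (by rw [← h]; rfl) hto hPo hD2 (fun l hl => oth l (by
          simp only [List.mem_cons, List.not_mem_nil, or_false] at hl ⊢; tauto) (by
          rintro rfl; simp at hl))
      · exact fame19c G (by rw [← h]; rfl) hto hPo hD2 (fun l hl => oth l (by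
          simp only [List.mem_cons, List.not_mem_nil, or_false] at hl ⊢; tauto) (by
          rintro rfl; simp at hl))
    · omega
    · omega

end Pool.Agent.N863.EP
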