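import Pool.Agent.N156.EP.A5

/-! Genus theory: in the period four case with class number one the ramified factor `R` of the
discriminant is `3` modulo `4`. -/

namespace Pool.Agent.N863.EP

open Pool.Agent.N156.EP H419R2
open scoped NumberTheorySymbols

theorem jac_congr {m : ℕ} {x y : ℕ} (h : x ≡ y [MOD m]) :
    jacobiSym (x : ℤ) m = jacobiSym (y : ℤ) m := by
  apply jacobiSym.mod_left'
  have := (Int.natCast_modEq_iff).mpr h
  exact this

theorem exists_jac {m : ℕ} (hm : 1 < m) (hodd : m % 2 = 1) (hsf : Squarefree m) :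
    ∃ n : ℕ, jacobiSym (n : ℤ) m = -1 := by
  have hp := Nat.minFac_prime (n := m) (by omega)
  obtain ⟨k, hk⟩ := Nat.minFac_dvd m
  obtain ⟨r, hr⟩ : ∃ r, r = m.minFac := ⟨_, rfl⟩
  rw [← hr] at hp hk
  have := Fact.mk hp
  have hr2 : r ≠ 2 := by
    rintro rfl
    rw [hk] at hodd
    omega
  have hcop : r.Coprime k := by
    rw [hk] at hsf
    exact (Nat.squarefree_mul_iff.mp hsf).1
  have hk0 : k ≠ 0 := by
    rintro rfl
    omega
  obtain ⟨u, hu⟩ := FiniteField.exists_nonsquare (F := ZMod r) (by rwa [ZMod.ringChar_zmod_n])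
  obtain ⟨n, h1, h2⟩ := Nat.chineseRemainder hcop u.val 1
  refine ⟨n, ?_⟩
  have : NeZero r := ⟨hp.ne_zero⟩
  have : NeZero k := ⟨hk0⟩
  rw [hk, jacobiSym.mul_right, jac_congr h1, jac_congr h2]
  have e1 : jacobiSym ((u.val : ℕ) : ℤ) r = -1 := by
    rw [← jacobiSym.legendreSym.to_jacobiSym, legendreSym.eq_neg_one_iff]
    simpa using hu
  rw [e1]
  simp

theorem genus {t P a b : ℤ} (h : Par4 t P a b) {D : ℕ} (hD : (D : ℤ) = t ^ 2 + 4 * P)
    (hsf : Squarefree (D : ℤ)) (ht : t % 2 = 1)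
    {K : Type*} [Field K] [NumberField K] (hK : Module.finrank ℚ K = 2) {x : K}
    (hx : x ^ 2 = ((D : ℤ) : K)) (hcl : NumberField.classNumber K = 1) :
    (1 + a * t - a ^ 2 * P) % 4 = 3 := by
  obtain ⟨ht0, hP, ha, hb, hQ, hc⟩ := h
  obtain ⟨R, hR⟩ : ∃ R : ℤ, R = 1 + a * t - a ^ 2 * P := ⟨_, rfl⟩
  rw [← hR] at hQ hc ⊢
  have hD1' : (1 : ℤ) < D := by rw [hD]; nlinarith
  have i1 : IsDomain (QA P t) := isDomain_of hD hsf hD1'
  have i2 : IsPrincipalIdealRing (QA P t) := pid_of_classNumber_one ht hD hsf hD1' hK hx hcl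
  have hfac : (D : ℤ) = R * (R * b ^ 2 + 4 * P) := by
    have e : R * (R * b ^ 2 + 4 * P) = (b * R) ^ 2 + 4 * P * R := by ring
    rw [e, hc, hR, hD]; ring
  have hDodd : (D : ℤ) % 2 = 1 := by
    obtain ⟨s, hs⟩ : ∃ s, t = 2 * s + 1 := ⟨t / 2, by omega⟩
    rw [hD, hs]; ring_nf; omega
  have hD4 : (D : ℤ) % 4 = 1 := by
    obtain ⟨s, hs⟩ : ∃ s, t = 2 * s + 1 := ⟨t / 2, by omega⟩
    rw [hD, hs]; ring_nf; omega
  have hRodd : R % 2 = 1 := by
    rcases Int.emod_two_eq_zero_or_one R with h0 | h0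
    · exfalso
      obtain ⟨s, hs⟩ : ∃ s, R = 2 * s := ⟨R / 2, by omega⟩
      rw [hfac, hs, mul_assoc, Int.mul_emod_right] at hDodd
      omega
    · exact h0
  by_contra hne
  have hR1 : R % 4 = 1 := by omega
  obtain ⟨r, rfl⟩ := Int.eq_ofNat_of_zero_le (by omega : (0 : ℤ) ≤ R)
  have hR'0 : 1 < (r : ℤ) * b ^ 2 + 4 * P := by nlinarith [sq_nonneg b]
  obtain ⟨r', hr'⟩ := Int.eq_ofNat_of_zero_le (by omega : (0 : ℤ) ≤ (r : ℤ) * b ^ 2 + 4 * P)
  rw [hr'] at hfac hR'0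
  have hfacN : D = r * r' := by exact_mod_cast hfac
  have hsfN : Squarefree D := Int.squarefree_natCast.mp hsf
  rw [hfacN] at hsfN
  obtain ⟨hcop, s1, s2⟩ := Nat.squarefree_mul_iff.mp hsfN
  have hr1 : 1 < r := by exact_mod_cast hQ
  have hr'1 : 1 < r' := by exact_mod_cast hR'0
  have hrodd : r % 2 = 1 := by omega
  have hDoddN : D % 2 = 1 := by omega
  have hr'odd : r' % 2 = 1 := by
    rcases Nat.mod_two_eq_zero_or_one r' with h0 | h0
    · exfalso
      rw [hfacN, Nat.mul_mod, h0] at hDoddN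
      simp at hDoddN
    · exact h0
  obtain ⟨n1, h1⟩ := exists_jac hr1 hrodd s1
  obtain ⟨n2, h2⟩ := exists_jac hr'1 hr'odd s2
  obtain ⟨n, c1, c2⟩ := Nat.chineseRemainder hcop n1 n2
  have : NeZero r := ⟨by omega⟩
  have : NeZero r' := ⟨by omega⟩
  have j1 : jacobiSym (n : ℤ) r = -1 := by rw [jac_congr c1, h1]
  have j2 : jacobiSym (n : ℤ) r' = -1 := by rw [jac_congr c2, h2]
  have : NeZero D := ⟨by omega⟩
  have j3 : jacobiSym (n : ℤ) D = 1 := by
    rw [hfacN, jacobiSym.mul_right, j1, j2]; norm_num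
  have hunit : IsUnit (n : ZMod D) := by
    rw [ZMod.isUnit_iff_coprime]
    have h3 : jacobiSym (n : ℤ) D ≠ 0 := by rw [j3]; norm_num
    have h4 : ¬ ¬ (n : ℤ).gcd D = 1 := fun h => h3 (jacobiSym.eq_zero_iff_not_coprime.mpr h)
    have h5 := not_not.mp h4
    rw [Int.gcd_natCast_natCast] at h5
    exact h5
  obtain ⟨l, hl2, hl, hln⟩ := Nat.forall_exists_prime_gt_and_eq_mod hunit 2
  have hlmod : l ≡ n [MOD D] := (ZMod.natCast_eq_natCast_iff _ _ _).mp hln
  have := Fact.mk hl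
  have hlodd : Odd l := hl.odd_of_ne_two (by omega)
  have k3 : jacobiSym (l : ℤ) D = 1 := by rw [jac_congr hlmod, j3]
  have k1 : jacobiSym (l : ℤ) r = -1 := by
    rw [jac_congr (hlmod.of_dvd ⟨r', hfacN⟩), j1]
  have k4 : jacobiSym (D : ℤ) l = 1 := by
    rw [jacobiSym.quadratic_reciprocity_one_mod_four (by omega) hlodd, k3]
  have hsq : IsSquare (((D : ℤ)) : ZMod l) := ZMod.isSquare_of_jacobiSym_eq_one k4
  obtain ⟨w0, hw0⟩ := root_of_square hl (by omega) hD hsq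
  obtain ⟨z, hz⟩ := exists_norm_prime hl hw0
  have hz2 : z.re ^ 2 + t * z.re * z.im - P * z.im ^ 2 = l ∨
      z.re ^ 2 + t * z.re * z.im - P * z.im ^ 2 = -l := by
    rw [← norm_eq]
    omega
  have hrodd' : Odd r := Nat.odd_iff.mpr hrodd
  have jneg : jacobiSym (-1) r = 1 := by
    rw [jacobiSym.at_neg_one hrodd']
    exact ZMod.χ₄_nat_one_mod_four (by omega)
  have jfour : jacobiSym (2 ^ 2) r = 1 := by
    rw [jacobiSym.pow_left]
    apply jacobiSym.sq_one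
    rw [Int.gcd_comm]
    have : Nat.Coprime r 2 := Nat.coprime_two_right.mpr hrodd'
    exact_mod_cast this
  obtain ⟨X, hX⟩ : ∃ X : ℤ, X = 2 * z.re + t * z.im := ⟨_, rfl⟩
  have hXsq : jacobiSym (X ^ 2) r ≠ -1 := by
    rw [jacobiSym.pow_left]
    nlinarith [sq_nonneg (jacobiSym X r)]
  apply hXsq
  have hid : X ^ 2 = 4 * (z.re ^ 2 + t * z.re * z.im - P * z.im ^ 2) + D * z.im ^ 2 := by
    rw [hX, hD]; ring
  rcases hz2 with h5 | h5
  · rw [h5] at hid
    have : jacobiSym (X ^ 2) r = jacobiSym (2 ^ 2 * l) r := by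
      apply jacobiSym.mod_left'
      rw [hid, hfac]
      rw [show 4 * (l : ℤ) + r * r' * z.im ^ 2 = 2 ^ 2 * l + r * (r' * z.im ^ 2) by ring]
      exact Int.add_mul_emod_self_left _ _ _
    rw [this, jacobiSym.mul_left, jfour, k1]
    norm_num
  · rw [h5] at hid
    have : jacobiSym (X ^ 2) r = jacobiSym (-1 * (2 ^ 2 * l)) r := by
      apply jacobiSym.mod_left'
      rw [hid, hfac]
      rw [show 4 * (-(l : ℤ)) + r * r' * z.im ^ 2 = -1 * (2 ^ 2 * l) + r * (r' * z.im ^ 2) by ring]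
      exact Int.add_mul_emod_self_left _ _ _
    rw [this, jacobiSym.mul_left, jacobiSym.mul_left, jneg, jfour, k1]
    norm_num

end Pool.Agent.N863.EP
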