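import Pool.Agent.N863.EP.E5
import Pool.Agent.N863.EP.G1
import Pool.Agent.N367.EP.C2

/-! Period four with an odd first partial quotient: the end of the proof, given the main sieve. -/

namespace Pool.Agent.N863.EP

open Pool.Agent.N156.EP H419R2
open Pool.Agent.N911 (nextQ)

/-- The main sieve. -/
def Core : Prop := ∀ (t P a b : ℤ) (D : ℕ), Good4 t P a b D → a % 2 = 1 → t % 2 = 1 →
  (1 + a * t - a ^ 2 * P) % 4 = 3 →
  (∀ l ∈ [3, 5, 7, 13, 19, 37, 73], ¬ IsSquare ((D : ℕ) : ZMod l)) → False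

theorem even_a_excluded {t P a b : ℤ} (hpar : Par4 t P a b) (hto : t % 2 = 1) (hao : a % 2 = 1)
    {D : ℤ} (hD : D = t ^ 2 + 4 * P) (h : D = 33 ∨ D = 141 ∨ D = 573 ∨ D = 1293 ∨ D = 1757) :
    False := by
  obtain ⟨ht, hP, ha, hb, hR, con⟩ := hpar
  have hPt : a * P < t := by
    have h1 : 0 < a * (t - a * P) := by nlinarith
    have := (mul_pos_iff_of_pos_left ha).mp h1
    linarith
  have hPt' : P < t := by nlinarith
  have ht42 : t ≤ 41 := by
    by_contra hc
    have : (42 : ℤ) ^ 2 ≤ t ^ 2 := pow_le_pow_left₀ (by norm_num) (by omega) 2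
    omega
  obtain ⟨c, rfl⟩ : ∃ c, t = 2 * c + 1 := ⟨t / 2, by omega⟩
  have hc0 : 0 ≤ c := by omega
  have hc1 : c ≤ 20 := by omega
  interval_cases c <;> norm_num at hD hPt' hPt con hR <;>
  rcases h with h | h | h | h | h <;> rw [h] at hD <;>
  first
  | omega
  | (interval_cases P <;> first
      | omega
      | (have hal : a ≤ 41 := by omega
         interval_cases a <;> omega))

theorem final (core : Core) {d : ℕ} (hsf : Squarefree d) (hd1 : 1 < d) (h4 : d % 4 = 1)
    {K : Type*} [Field K] [NumberField K] (hK : Module.finrank ℚ K = 2) {x : K}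
    (hx : x ^ 2 = (d : K)) (hcl : NumberField.classNumber K = 1)
    (hper : N367.EP.perLen d = 4) (hodd : Odd ⌊nextQ (N367.EP.omega d)⌋) :
    d ∈ [69, 133, 213, 413, 717, 1077, 1397, 3053] := by
  obtain ⟨t, P, b, ht, hto, hD, hP, ha, hor, G⟩ :=
    N367.EP.good hsf hd1 h4 hK hx hcl (Or.inr hper)
  have hpar : Par4 t P ⌊nextQ (N367.EP.omega d)⌋ b := by
    rcases hor with ⟨h, -⟩ | ⟨-, h⟩
    · omega
    · exact h
  obtain ⟨a, hae⟩ : ∃ a : ℤ, a = ⌊nextQ (N367.EP.omega d)⌋ := ⟨_, rfl⟩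
  rw [← hae] at hpar G ha hodd
  have hao : a % 2 = 1 := Int.odd_iff.mp hodd
  have hsf' : Squarefree (d : ℤ) := Int.squarefree_natCast.mpr hsf
  have hx' : x ^ 2 = ((d : ℤ) : K) := by rw [hx]; push_cast; rfl
  have hR := genus hpar hD hsf' hto hK hx' hcl
  rcases reduce G hpar hto hao hR with h | ⟨-, h⟩
  · by_contra hne
    unfold Fin13 at h
    simp only [List.mem_cons, List.not_mem_nil, or_false] at h hne
    apply even_a_excluded hpar hto hao hD
    omega
  · exact (core t P a b d G hao hto hR h).elim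

end Pool.Agent.N863.EP
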