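import Pool.Agent.N367.EP.U2

/-! For period four, the second coordinate of the unit of the period divides the second coordinate
of every unit. -/

namespace Pool.Agent.N863.EP

open Pool.Agent.N156.EP Pool.Agent.N367.EP

theorem par_eq {D T U : ℤ} (hD : D % 2 = 1) (h : T ^ 2 - D * U ^ 2 = 4 ∨ T ^ 2 - D * U ^ 2 = -4) :
    (T - U) % 2 = 0 := by
  obtain ⟨e, rfl⟩ : ∃ e, D = 2 * e + 1 := ⟨D / 2, by omega⟩
  have h1 : (T ^ 2 - U ^ 2) % 2 = 0 := by
    have e1 : T ^ 2 - U ^ 2 = (T ^ 2 - (2 * e + 1) * U ^ 2) + 2 * (e * U ^ 2) := by ring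
    omega
  have h2 : T ^ 2 - U ^ 2 = (T - U) * (T + U) := by ring
  rcases Int.emod_two_eq_zero_or_one (T - U) with h3 | h3
  · exact h3
  · exfalso
    have h4 : (T + U) % 2 = 1 := by omega
    rw [h2, Int.mul_emod, h3, h4] at h1
    norm_num at h1

theorem unit_dvd_aux {t P a b : ℤ} (h : Par4 t P a b) (ht : t % 2 = 1) {s : ℝ}
    (hs : s ^ 2 = (t : ℝ) ^ 2 + 4 * P) (hs0 : 0 < s) :
    ∀ n : ℕ, ∀ T U : ℤ, 0 < T → 0 < U → U ≤ n →
      (T ^ 2 - (t ^ 2 + 4 * P) * U ^ 2 = 4 ∨ T ^ 2 - (t ^ 2 + 4 * P) * U ^ 2 = -4) →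
      a * (a * b + 2) ∣ U := by
  have hn := unit_norm h
  have h0 := h
  obtain ⟨ht0, hP, ha0, hb, hQ, hc⟩ := h
  obtain ⟨T0, hT0⟩ : ∃ T0 : ℤ, T0 = 2 * (a * b + 1) + a * (a * b + 2) * t := ⟨_, rfl⟩
  obtain ⟨U0, hU0⟩ : ∃ U0 : ℤ, U0 = a * (a * b + 2) := ⟨_, rfl⟩
  rw [← hT0, ← hU0] at hn
  obtain ⟨D, hD⟩ : ∃ D : ℤ, D = t ^ 2 + 4 * P := ⟨_, rfl⟩
  rw [← hD] at hn ⊢
  rw [← hU0]
  have hD2 : D % 2 = 1 := by
    rw [hD]
    have := Int.odd_iff.mp ((Int.odd_iff.mpr ht).pow (n := 2))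
    omega
  have hD5 : 5 ≤ D := by nlinarith
  have hpar0 := par_eq hD2 (Or.inl hn)
  have hDr : s ^ 2 = (D : ℝ) := by rw [hs, hD]; push_cast; ring
  have hU0pos : 0 < U0 := by rw [hU0]; positivity
  have hT0pos : 0 < T0 := by rw [hT0]; positivity
  have hP1 : (1 : ℝ) < P := by exact_mod_cast hP
  have htr : (1 : ℝ) ≤ t := by exact_mod_cast ht0
  have hst : (t : ℝ) < s := by nlinarith
  have hs1 : 1 < s := by linarith
  have hnr : (T0 : ℝ) ^ 2 - s ^ 2 * (U0 : ℝ) ^ 2 = 4 := by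
    rw [hDr]; exact_mod_cast hn
  intro n
  induction n with
  | zero => intro T U _ hU hle; exfalso; push_cast at hle; omega
  | succ n ih =>
    intro T U hT hU hle hun
    have hTr : (1 : ℝ) ≤ T := by exact_mod_cast hT
    have hUr : (1 : ℝ) ≤ U := by exact_mod_cast hU
    have h1 : 1 < ((T : ℝ) + U * s) / 2 := by nlinarith
    have hge := unit_ge h0 ht hs hs0 (by rw [← hD]; exact hun) h1
    rw [← hT0, ← hU0] at hge
    have hpar := par_eq hD2 hun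
    obtain ⟨T1, hT1⟩ : ∃ T1 : ℤ, 2 * T1 = T * T0 - D * U * U0 := by
      refine ⟨(T * T0 - D * U * U0) / 2, ?_⟩
      have e : T * T0 - D * U * U0 = (T - U) * T0 + U * (T0 - U0) - (D - 1) * (U * U0) := by ring
      obtain ⟨x, hx⟩ : ∃ x, T - U = 2 * x := ⟨(T - U) / 2, by omega⟩
      obtain ⟨y, hy⟩ : ∃ y, T0 - U0 = 2 * y := ⟨(T0 - U0) / 2, by omega⟩
      obtain ⟨z, hz⟩ : ∃ z, D - 1 = 2 * z := ⟨(D - 1) / 2, by omega⟩
      rw [hx, hy, hz] at e
      have e2 : T * T0 - D * U * U0 = 2 * (x * T0 + U * y - z * (U * U0)) := by rw [e]; ring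
      omega
    obtain ⟨U1, hU1⟩ : ∃ U1 : ℤ, 2 * U1 = U * T0 - T * U0 := by
      refine ⟨(U * T0 - T * U0) / 2, ?_⟩
      obtain ⟨x, hx⟩ : ∃ x, T - U = 2 * x := ⟨(T - U) / 2, by omega⟩
      obtain ⟨y, hy⟩ : ∃ y, T0 - U0 = 2 * y := ⟨(T0 - U0) / 2, by omega⟩
      have e2 : U * T0 - T * U0 = 2 * (U * y - x * U0) := by
        linear_combination U * hy - U0 * hx
      omega
    have hT1r : (2 : ℝ) * T1 = T * T0 - D * U * U0 := by exact_mod_cast hT1
    have hU1r : (2 : ℝ) * U1 = U * T0 - T * U0 := by exact_mod_cast hU1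
    have hn1 : T1 ^ 2 - D * U1 ^ 2 = T ^ 2 - D * U ^ 2 := by
      have e : 4 * (T1 ^ 2 - D * U1 ^ 2) = 4 * (T ^ 2 - D * U ^ 2) := by
        have e1 : 4 * (T1 ^ 2 - D * U1 ^ 2) = (2 * T1) ^ 2 - D * (2 * U1) ^ 2 := by ring
        rw [e1, hT1, hU1]
        linear_combination (T ^ 2 - D * U ^ 2) * hn
      omega
    obtain ⟨θ, hθ⟩ : ∃ θ : ℝ, θ = ((T : ℝ) + U * s) / 2 := ⟨_, rfl⟩
    obtain ⟨θ', hθ'⟩ : ∃ θ : ℝ, θ = ((T : ℝ) - U * s) / 2 := ⟨_, rfl⟩
    obtain ⟨η, hη⟩ : ∃ θ : ℝ, θ = ((T0 : ℝ) + U0 * s) / 2 := ⟨_, rfl⟩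
    obtain ⟨η', hη'⟩ : ∃ θ : ℝ, θ = ((T0 : ℝ) - U0 * s) / 2 := ⟨_, rfl⟩
    obtain ⟨ρ, hρ⟩ : ∃ θ : ℝ, θ = ((T1 : ℝ) + U1 * s) / 2 := ⟨_, rfl⟩
    obtain ⟨ρ', hρ'⟩ : ∃ θ : ℝ, θ = ((T1 : ℝ) - U1 * s) / 2 := ⟨_, rfl⟩
    rw [← hθ, ← hη] at hge
    have hηη : η * η' = 1 := by rw [hη, hη']; linear_combination (1 / 4) * hnr
    have hη1 : 1 < η := by
      have q1 : (1 : ℝ) ≤ T0 := by exact_mod_cast hT0pos
      have q2 : (1 : ℝ) ≤ U0 := by exact_mod_cast hU0pos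
      rw [hη]; nlinarith
    have hη'0 : 0 < η' := by
      by_contra hcon
      push Not at hcon
      nlinarith
    have hη'1 : η' < 1 := by nlinarith
    have c1 : ρ = θ * η' := by
      rw [hρ, hθ, hη']
      linear_combination (1 / 4) * hT1r + (s / 4) * hU1r + (U * U0 / 4 : ℝ) * hDr
    have c2 : ρ' = θ' * η := by
      rw [hρ', hθ', hη]
      linear_combination (1 / 4) * hT1r - (s / 4) * hU1r + (U * U0 / 4 : ℝ) * hDr
    have hρ1 : 1 ≤ ρ := by
      rw [c1]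
      calc (1 : ℝ) = η * η' := hηη.symm
        _ ≤ θ * η' := mul_le_mul_of_nonneg_right hge hη'0.le
    have hθρ : θ = ρ * η := by
      rw [c1]; linear_combination (-θ) * hηη
    have hNρ : |ρ * ρ'| = 1 := by
      have e : ρ * ρ' = ((T1 ^ 2 - D * U1 ^ 2 : ℤ) : ℝ) / 4 := by
        rw [hρ, hρ']; push_cast
        linear_combination (-(U1 : ℝ) ^ 2 / 4) * hDr
      rw [e, hn1]
      rcases hun with h | h
      · rw [h]; norm_num
      · rw [h]; norm_num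
    have hρ'1 : |ρ'| ≤ 1 := by
      rw [abs_mul, abs_of_pos (by linarith)] at hNρ
      nlinarith [abs_nonneg ρ']
    have hθ'1 : |θ'| ≤ 1 := by
      have e : ρ' * η' = θ' := by rw [c2]; linear_combination θ' * hηη
      rw [← e, abs_mul, abs_of_pos hη'0]
      nlinarith [abs_nonneg ρ']
    obtain ⟨l1, l2⟩ := abs_le.mp hρ'1
    obtain ⟨l3, l4⟩ := abs_le.mp hθ'1
    have hU1s : (U1 : ℝ) * s = ρ - ρ' := by rw [hρ, hρ']; ring
    have hUs : (U : ℝ) * s = θ - θ' := by rw [hθ, hθ']; ring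
    have hU1nn : 0 ≤ U1 := by
      have h2 : (0 : ℝ) ≤ U1 := by
        by_contra hcon
        push Not at hcon
        nlinarith
      exact_mod_cast h2
    have hdvd : U0 ∣ U1 := by
      rcases hU1nn.eq_or_lt with h2 | hU1pos
      · rw [← h2]; exact dvd_zero _
      · have hU1lt : U1 < U := by
          have h2 : (U1 : ℝ) < U := by
            by_contra hcon
            push Not at hcon
            have h4 : (U : ℝ) * s ≤ U1 * s := mul_le_mul_of_nonneg_right hcon hs0.le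
            rw [hU1s, hUs, hθρ] at h4
            have h5 : θ' = ρ' * η' := by rw [c2]; linear_combination (-θ') * hηη
            rw [h5] at h4
            nlinarith
          exact_mod_cast h2
        have hT1pos : 0 < T1 := by
          have e : (T1 : ℝ) = ρ + ρ' := by rw [hρ, hρ']; ring
          have h2 : (0 : ℝ) ≤ T1 := by rw [e]; linarith
          have h3 : 0 ≤ T1 := by exact_mod_cast h2
          rcases h3.eq_or_lt with h4 | h4
          · exfalso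
            rw [← h4] at hn1
            have h5 : 1 ≤ U1 ^ 2 := by nlinarith
            rcases hun with h | h <;> nlinarith
          · exact h4
        exact ih T1 U1 hT1pos hU1pos (by push_cast at hle; omega) (by rw [hn1]; exact hun)
    obtain ⟨w, hw⟩ := hdvd
    have hpar1 := par_eq hD2 (T := T1) (U := U1) (by rw [hn1]; exact hun)
    have h2U : 2 * U = U0 * (T1 + w * T0) := by
      have e1 : 4 * U = 2 * (T1 * U0 + U1 * T0) := by
        have e2 : 2 * (T1 * U0 + U1 * T0) = (2 * T1) * U0 + (2 * U1) * T0 := by ring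
        rw [e2, hT1, hU1]
        linear_combination (-U) * hn
      have e3 : U1 * T0 = U0 * (w * T0) := by rw [hw]; ring
      have e4 : U0 * (T1 + w * T0) = T1 * U0 + U0 * (w * T0) := by ring
      rw [e4, ← e3]
      omega
    obtain ⟨m, hm⟩ : ∃ m, T1 + w * T0 = 2 * m := by
      refine ⟨(T1 + w * T0) / 2, ?_⟩
      obtain ⟨x, hx⟩ : ∃ x, T1 - U1 = 2 * x := ⟨(T1 - U1) / 2, by omega⟩
      obtain ⟨y, hy⟩ : ∃ y, T0 - U0 = 2 * y := ⟨(T0 - U0) / 2, by omega⟩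
      have e : T1 + w * T0 = 2 * (x + U1 + w * y) := by
        linear_combination hx + w * hy - hw
      omega
    rw [hm] at h2U
    exact ⟨m, by linarith⟩

/-- The second coordinate of the unit of the period divides that of every unit. -/
theorem unit_dvd {d : ℕ} {t P a b : ℤ} (hc : Par4 t P a b) (hodd : t % 2 = 1)
    (hD : (d : ℤ) = t ^ 2 + 4 * P) {T U : ℤ}
    (hu : T ^ 2 - d * U ^ 2 = 4 ∨ T ^ 2 - d * U ^ 2 = -4) : a * (a * b + 2) ∣ U := by
  have hP := hc.2.1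
  have hd5 : (5 : ℤ) ≤ d := by rw [hD]; nlinarith [hc.1]
  have hdr : ((d : ℤ) : ℝ) = ((t ^ 2 + 4 * P : ℤ) : ℝ) := by rw [hD]
  push_cast at hdr
  have hs : √(d : ℝ) ^ 2 = (t : ℝ) ^ 2 + 4 * P := by
    rw [Real.sq_sqrt (by positivity)]
    exact hdr
  have hs0 : 0 < √(d : ℝ) := Real.sqrt_pos.mpr (by exact_mod_cast (by omega : 0 < d))
  by_cases hU0 : U = 0
  · rw [hU0]; exact dvd_zero _
  have hT : T ≠ 0 := by
    rintro rfl
    have h5 : 1 ≤ U ^ 2 := by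
      have : 0 < U ^ 2 := by positivity
      omega
    rcases hu with h | h <;> nlinarith
  have := unit_dvd_aux hc hodd hs hs0 U.natAbs |T| |U| (abs_pos.mpr hT) (abs_pos.mpr hU0)
    (by simp) (by rw [sq_abs, sq_abs, ← hD]; exact hu)
  exact (dvd_abs _ _).mp this

end Pool.Agent.N863.EP
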