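import Pool.Agent.N863.EP.H1
import Pool.Agent.N156.EP.K8

/-! Soundness of the search for even `a`. -/

set_option maxRecDepth 100000

namespace Pool.Agent.N863.EP

open H419R2 Finset
open Pool.Agent.N911 hiding S13 S19 S5
open Pool.Agent.N156.EP

/-- all that is used about the integers -/
structure Sys4e (z : Dat) : Prop where
  con : Con4 z
  hP : M8 ∣ z.P * z.Pi - 1
  hR : M8 ∣ z.R * z.Ri - 1
  aev : z.a % 4 = 2
  tod : z.t % 2 = 1
  Pod : z.P % 2 = 1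
  nsq : ∀ l : ℕ, l ∈ [3, 5, 7, 13, 19, 37, 73] → ¬ IsSquare ((z.t ^ 2 + 4 * z.P : ℤ) : ZMod l)
  r148_7 : NRel4 c148_7 z
  r148_19 : NRel4 c148_19 z
  r259_0 : NRel4 c259_19_0 z
  r259_1 : NRel4 c259_19_1 z
  r259_2 : NRel4 c259_19_2 z
  r133_37 : NRel4 c133_37 z
  r111_0 : NRel4 c111_19_0 z
  r111_1 : NRel4 c111_19_1 z
  r228 : NRel4 c228_7 z
  r140 : NRel4 c140_13 z
  r95 : NRel4 c95_13 z
  r105 : NRel4 c105_13 z
  r185 : NRel4 c185_13 z
  r133_13 : NRel4 c133_13 z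
  r91 : NRel4 c91_37 z
  r296_7a : NRel4 c296_7a z
  r296_7b : NRel4 c296_7b z
  r296_5a : NRel4 c296_5a z
  r296_5b : NRel4 c296_5b z
  r280 : NRel4 c280_37 z
  r456 : NRel4 c456_7 z
  r380 : NRel4 c380_7 z
  r532 : NRel4 c532_37 z

theorem lok8 {z : Dat} (H : Sys4e z) {l I : ℕ} (l1 : 1 < l) (hI : chkI l I = true)
    (hl : (l : ℤ) ∣ M8) : LOK z l I :=
  ⟨l1, hI, one_of8 H.hP hl, one_of8 H.hR hl⟩

theorem Sys4e.v0 {z : Dat} (H : Sys4e z) {l : ℕ} (h : l ∈ [3, 5, 7, 13, 19, 37, 73]) :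
    V l z.t z.P := by
  unfold V
  rw [if_neg (by rintro rfl; simp at h)]
  exact H.nsq l h

theorem Sys4e.v1 {z : Dat} (H : Sys4e z) {l : ℕ} (h : l ∈ [3, 5, 7, 13, 19, 37, 73]) :
    V l (z.B1 * z.Pi) (z.R * z.Pi) := by
  unfold V
  rw [if_neg (by rintro rfl; simp at h)]
  intro hs
  apply H.nsq l h
  have e := one_of8 H.hP (mem_dvd8 h)
  push_cast at e
  apply sq_of (y := (z.Pi : ZMod l)) (y' := (z.P : ZMod l)) e
  have d : ((z.B1 ^ 2 + 4 * z.P * z.R : ℤ) : ZMod l) = ((z.t ^ 2 + 4 * z.P : ℤ) : ZMod l) := by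
    rw [disc1]
  rw [← d]
  convert hs using 1
  push_cast
  linear_combination 4 * (z.R : ZMod l) * z.Pi * e

theorem Sys4e.v2 {z : Dat} (H : Sys4e z) {l : ℕ} (h : l ∈ [3, 5, 7, 13, 19, 37, 73]) :
    V l z.b (z.P * z.Ri) := by
  unfold V
  rw [if_neg (by rintro rfl; simp at h)]
  intro hs
  apply H.nsq l h
  have e := one_of8 H.hR (mem_dvd8 h)
  push_cast at e
  apply sq_of (y := (z.Ri : ZMod l)) (y' := (z.R : ZMod l)) e
  have d : ((z.b ^ 2 * z.R ^ 2 + 4 * z.P * z.R : ℤ) : ZMod l) =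
      ((z.t ^ 2 + 4 * z.P : ℤ) : ZMod l) := by
    rw [disc3 H.con]
  rw [← d]
  convert hs using 1
  push_cast
  linear_combination (4 * (z.P : ZMod l) * z.Ri + (z.b : ZMod l) ^ 2 * (z.R * z.Ri + 1)) * e

theorem odd8e_R {z : Dat} (H : Sys4e z) : z.R % 2 = 1 := by
  have h0 := H.aev
  unfold Dat.R
  obtain ⟨a', ha⟩ : ∃ k, z.a = 2 * k := ⟨z.a / 2, by omega⟩
  rw [ha]
  have e : 1 + 2 * a' * z.t - (2 * a') ^ 2 * z.P = 1 + 2 * (a' * z.t - 2 * a' ^ 2 * z.P) := by ring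
  rw [e]
  omega

theorem odd8_B1 {z : Dat} (H : Sys4e z) : z.B1 % 2 = 1 := by
  have h1 := H.tod
  unfold Dat.B1
  have e : 2 * z.a * z.P - z.t = 2 * (z.a * z.P) - z.t := by ring
  rw [e]; omega

theorem odd8_b {z : Dat} (H : Sys4e z) : z.b % 2 = 1 := by
  have h1 := odd8_B1 H
  have h2 := H.con
  unfold Con4 at h2
  rw [← h2] at h1
  rcases Int.emod_two_eq_zero_or_one z.b with h3 | h3
  · rw [Int.mul_emod, h3, zero_mul] at h1
    exact absurd h1 (by norm_num)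
  · exact h3

theorem Sys4e.par {z : Dat} (H : Sys4e z) : (z.B1 * z.Pi) % 2 = 1 ∧ (z.R * z.Pi) % 2 = 1 ∧
    z.b % 2 = 1 ∧ (z.P * z.Ri) % 2 = 1 :=
  ⟨odd_mul (odd8_B1 H) (odd8_inv H.hP), odd_mul (odd8e_R H) (odd8_inv H.hP), odd8_b H,
    odd_mul H.Pod (odd8_inv H.hR)⟩

theorem S13_sound {z : Dat} (H : Sys4e z) {next : Leaf}
    (h : S13 (res z.a 37) (res z.b 37) (res z.t 37) (pP z 37) (pR z 37) (p0 z 37) (p1 z 37) (r2 z 37)
      (pP z 7) (pR z 7) (p0 z 7) (p1 z 7) (r2 z 7) (pP z 19) (pR z 19) (p0 z 19) (p1 z 19) (r2 z 19) (pP z 3) (pR z 3) (p0 z 3) (p1 z 3) (r2 z 3)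
      (pP z 5) (pR z 5) (p0 z 5) (p1 z 5) (r2 z 5) next = true) : At4 z 13 next := by
  have m3 : (3 : ℕ) ∈ [3, 5, 7, 13, 19, 37, 73] := by simp
  have m5 : (5 : ℕ) ∈ [3, 5, 7, 13, 19, 37, 73] := by simp
  have m7 : (7 : ℕ) ∈ [3, 5, 7, 13, 19, 37, 73] := by simp
  have m13 : (13 : ℕ) ∈ [3, 5, 7, 13, 19, 37, 73] := by simp
  have m19 : (19 : ℕ) ∈ [3, 5, 7, 13, 19, 37, 73] := by simp
  have m37 : (37 : ℕ) ∈ [3, 5, 7, 13, 19, 37, 73] := by simp
  have m73 : (73 : ℕ) ∈ [3, 5, 7, 13, 19, 37, 73] := by simp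
  unfold S13 at h
  obtain ⟨K, T, A, B, L1, h⟩ := cof4_sound H.r95 (tab_95 (H.v0 m19) (H.v0 m5)) (tab_95 (H.v1 m19) (H.v1 m5)) (tab_95 (H.v2 m19) (H.v2 m5))
    (chv_95 z.P) (chv_95 z.R) h
  obtain ⟨K', T', A', B', L2, h⟩ := cof4_sound H.r105
    (tab_105 (H.v0 m7) (H.v0 m3) (H.v0 m5)) (tab_105 (H.v1 m7) (H.v1 m3) (H.v1 m5))
    (tab_105 (H.v2 m7) (H.v2 m3) (H.v2 m5)) (chv_105 z.P) (chv_105 z.R) h
  obtain ⟨K2, T2, A2, B2, L3, h⟩ := cof4_sound H.r185 (tab_185 (H.v0 m37) (H.v0 m5)) (tab_185 (H.v1 m37) (H.v1 m5)) (tab_185 (H.v2 m37) (H.v2 m5))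
    (chv_185 z.P) (chv_185 z.R) h
  obtain ⟨K3, T3, A3, B3, L4, h⟩ := cof4_sound H.r133_13 (tab_133_13 (H.v0 m7) (H.v0 m19)) (tab_133_13 (H.v1 m7) (H.v1 m19)) (tab_133_13 (H.v2 m7) (H.v2 m19))
    (chv_133_13 z.P) (chv_133_13 z.R) h
  have ca13 := res_cast' z.a (show 0 < 13 by norm_num)
  have cb13 := res_cast' z.b (show 0 < 13 by norm_num)
  have ct13 := res_cast' z.t (show 0 < 13 by norm_num)
  have ca37 := res_cast' z.a (show 0 < 37 by norm_num)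
  have cb37 := res_cast' z.b (show 0 < 37 by norm_num)
  have ct37 := res_cast' z.t (show 0 < 37 by norm_num)
  have h1 := enL4_sound (lok8 H (by norm_num) ci13 (mem_dvd8 m13)) (by norm_num)
    (H.v0 m13) iq13 H.con L1 L2 (cj_true.mpr ⟨ckL_sound L3 ca13 cb13 ct13,
      ckL_sound L4 ca13 cb13 ct13⟩) h
  unfold At4 at h1 ⊢
  exact imp_true h1 (ckF4_sound H.r91 rfl (tab_91 (H.v0 m7) (H.v0 m13)) (tab_91 (H.v1 m7) (H.v1 m13)) (tab_91 (H.v2 m7) (H.v2 m13))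
    (chv_91 z.P) (chv_91 z.R) ca37 cb37 ct37)

theorem S19_sound {z : Dat} (H : Sys4e z) {next : Leaf}
    (h : S19 c532_37 (res z.a 37) (res z.b 37) (res z.t 37)
      (pP z 37) (pR z 37) (p0 z 37) (p1 z 37) (r2 z 37)
      (pP z 3) (pR z 3) (p0 z 3) (p1 z 3) (r2 z 3)
      (pP z 4) (pR z 4) (p0 z 4) (p1 z 4) (r2 z 4)
      (pP z 5) (pR z 5) (p0 z 5) (p1 z 5) (r2 z 5)
      (res z.a 7) (res z.b 7) (res z.t 7) (pP z 7) (pR z 7) (p0 z 7) (p1 z 7) (r2 z 7)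
      (pP z 8) (p0 z 8) (p1 z 8) next = true) : At4 z 19 next := by
  have m3 : (3 : ℕ) ∈ [3, 5, 7, 13, 19, 37, 73] := by simp
  have m5 : (5 : ℕ) ∈ [3, 5, 7, 13, 19, 37, 73] := by simp
  have m7 : (7 : ℕ) ∈ [3, 5, 7, 13, 19, 37, 73] := by simp
  have m13 : (13 : ℕ) ∈ [3, 5, 7, 13, 19, 37, 73] := by simp
  have m19 : (19 : ℕ) ∈ [3, 5, 7, 13, 19, 37, 73] := by simp
  have m37 : (37 : ℕ) ∈ [3, 5, 7, 13, 19, 37, 73] := by simp
  have m73 : (73 : ℕ) ∈ [3, 5, 7, 13, 19, 37, 73] := by simp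
  obtain ⟨o1, o2, o3, o4⟩ := H.par
  unfold S19 at h
  have ih : idem3 4 133 7 456 19 476 c532_37.q = true := by decide
  obtain ⟨K, T, A, B, L1, h⟩ := cof4_sound H.r259_0 (tab_259_0 (H.v0 m37) (H.v0 m7)) (tab_259_0 (H.v1 m37) (H.v1 m7)) (tab_259_0 (H.v2 m37) (H.v2 m7))
    (chv_259_0 z.P) (chv_259_0 z.R) h
  obtain ⟨K', T', A', B', L2, h⟩ := cof4_sound H.r111_1 (tab_111_1 (H.v0 m37) (H.v0 m3)) (tab_111_1 (H.v1 m37) (H.v1 m3)) (tab_111_1 (H.v2 m37) (H.v2 m3))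
    (chv_111_1 z.P) (chv_111_1 z.R) h
  obtain ⟨K2, T2, A2, B2, L3, h⟩ := cof4_sound H.r259_1 (tab_259_1 (H.v0 m37) (H.v0 m7)) (tab_259_1 (H.v1 m37) (H.v1 m7)) (tab_259_1 (H.v2 m37) (H.v2 m7))
    (chv_259_1 z.P) (chv_259_1 z.R) h
  obtain ⟨K3, T3, A3, B3, L4, h⟩ := cof4_sound H.r111_0 (tab_111_0 (H.v0 m37) (H.v0 m3)) (tab_111_0 (H.v1 m37) (H.v1 m3)) (tab_111_0 (H.v2 m37) (H.v2 m3))
    (chv_111_0 z.P) (chv_111_0 z.R) h
  have ca19 := res_cast' z.a (show 0 < 19 by norm_num)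
  have cb19 := res_cast' z.b (show 0 < 19 by norm_num)
  have ct19 := res_cast' z.t (show 0 < 19 by norm_num)
  have ca37 := res_cast' z.a (show 0 < 37 by norm_num)
  have cb37 := res_cast' z.b (show 0 < 37 by norm_num)
  have ct37 := res_cast' z.t (show 0 < 37 by norm_num)
  have ca7 := res_cast' z.a (show 0 < 7 by norm_num)
  have cb7 := res_cast' z.b (show 0 < 7 by norm_num)
  have ct7 := res_cast' z.t (show 0 < 7 by norm_num)
  have h1 := enL4_sound (lok8 H (by norm_num) ci19 (mem_dvd8 m19)) (by norm_num)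
    (H.v0 m19) iq19 H.con L1 L2 (cj_true.mpr ⟨ckL_sound L3 ca19 cb19 ct19,
      ckL_sound L4 ca19 cb19 ct19⟩) h
  unfold At4 at h1 ⊢
  have h2 := imp_true h1 (ckV4_sound H.r228 rfl (tab_228 (H.v0 m19) (H.v0 m3) (V4_of H.tod H.Pod))
    (tab_228 (H.v1 m19) (H.v1 m3) (V4_of o1 o2)) (tab_228 (H.v2 m19) (H.v2 m3) (V4_of o3 o4))
    (chv_228 z.P) (chv_228 z.R))
  have h3 := imp_true h2 (ckF4_sound H.r133_37 rfl (tab_133_37 (H.v0 m7) (H.v0 m19)) (tab_133_37 (H.v1 m7) (H.v1 m19)) (tab_133_37 (H.v2 m7) (H.v2 m19))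
    (chv_133_37 z.P) (chv_133_37 z.R) ca37 cb37 ct37)
  have h4 := imp_true h3 (ckV4_sound H.r456 rfl (tab_456 (H.v0 m19) (H.v0 m3) (V8_of H.tod H.Pod))
    (tab_456 (H.v1 m19) (H.v1 m3) (V8_of o1 o2)) (tab_456 (H.v2 m19) (H.v2 m3) (V8_of o3 o4))
    (chv_456 z.P) (chv_456 z.R))
  have h5 := imp_true h4 (ckF4_sound H.r380 rfl
    (tab_380 (H.v0 m19) (H.v0 m5) (V4_of H.tod H.Pod)) (tab_380 (H.v1 m19) (H.v1 m5) (V4_of o1 o2))
    (tab_380 (H.v2 m19) (H.v2 m5) (V4_of o3 o4)) (chv_380 z.P) (chv_380 z.R) ca7 cb7 ct7)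
  exact imp_true h5 (ckF4_sound H.r532 rfl
    (evT_sound c532_37_ok (by norm_num) (by norm_num) (by norm_num) ih _ _)
    (evT_sound c532_37_ok (by norm_num) (by norm_num) (by norm_num) ih _ _)
    (evT_sound c532_37_ok (by norm_num) (by norm_num) (by norm_num) ih _ _)
    (chT_sound (by norm_num) (by norm_num) (by norm_num) ih _)
    (chT_sound (by norm_num) (by norm_num) (by norm_num) ih _) ca37 cb37 ct37)

theorem cl4e : chkLTe 4 I4 N4e = true := by decide +kernel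
theorem cl8e : chkLTe 8 I8 N8e = true := by decide +kernel

theorem S5_sound {z : Dat} (H : Sys4e z) {K T A B : ℕ} (L : Lin z 5 K T A B) {next : Leaf}
    (h : S5 K T A B (pP z 7) (p0 z 7) (p1 z 7) (pP z 4) (p0 z 4) (p1 z 4) (pP z 8) (p0 z 8)
      (p1 z 8) next = true) : At4 z 5 next := by
  have m3 : (3 : ℕ) ∈ [3, 5, 7, 13, 19, 37, 73] := by simp
  have m5 : (5 : ℕ) ∈ [3, 5, 7, 13, 19, 37, 73] := by simp
  have m7 : (7 : ℕ) ∈ [3, 5, 7, 13, 19, 37, 73] := by simp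
  have m13 : (13 : ℕ) ∈ [3, 5, 7, 13, 19, 37, 73] := by simp
  have m19 : (19 : ℕ) ∈ [3, 5, 7, 13, 19, 37, 73] := by simp
  have m37 : (37 : ℕ) ∈ [3, 5, 7, 13, 19, 37, 73] := by simp
  have m73 : (73 : ℕ) ∈ [3, 5, 7, 13, 19, 37, 73] := by simp
  obtain ⟨o1, o2, o3, o4⟩ := H.par
  unfold S5 at h
  simp only [force_eq] at h
  have h1 := LL4_sound (lok8 H (by norm_num) ci5 (mem_dvd8 m5)) (by norm_num)
    (H.v0 m5) iq5 H.con cl5 h
  unfold At4 at h1 ⊢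
  have ca5 := res_cast' z.a (show 0 < 5 by norm_num)
  have cb5 := res_cast' z.b (show 0 < 5 by norm_num)
  have ct5 := res_cast' z.t (show 0 < 5 by norm_num)
  have h2 := imp_true h1 (ckL_sound L ca5 cb5 ct5)
  have h3 := imp_true h2 (ckV4_sound H.r140 rfl
    (tab_140 (H.v0 m7) (V4_of H.tod H.Pod) (H.v0 m5)) (tab_140 (H.v1 m7) (V4_of o1 o2) (H.v1 m5))
    (tab_140 (H.v2 m7) (V4_of o3 o4) (H.v2 m5)) (chv_140 z.P) (chv_140 z.R))
  exact imp_true h3 (ckV4_sound H.r280 rfl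
    (tab_280 (H.v0 m7) (V8_of H.tod H.Pod) (H.v0 m5)) (tab_280 (H.v1 m7) (V8_of o1 o2) (H.v1 m5))
    (tab_280 (H.v2 m7) (V8_of o3 o4) (H.v2 m5)) (chv_280 z.P) (chv_280 z.R))

theorem S7_sound {z : Dat} (H : Sys4e z) {next : Leaf}
    (h : S7 (pP z 37) (p0 z 37) (p1 z 37) next = true) : At4 z 7 next := by
  have m3 : (3 : ℕ) ∈ [3, 5, 7, 13, 19, 37, 73] := by simp
  have m5 : (5 : ℕ) ∈ [3, 5, 7, 13, 19, 37, 73] := by simp
  have m7 : (7 : ℕ) ∈ [3, 5, 7, 13, 19, 37, 73] := by simp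
  have m13 : (13 : ℕ) ∈ [3, 5, 7, 13, 19, 37, 73] := by simp
  have m19 : (19 : ℕ) ∈ [3, 5, 7, 13, 19, 37, 73] := by simp
  have m37 : (37 : ℕ) ∈ [3, 5, 7, 13, 19, 37, 73] := by simp
  have m73 : (73 : ℕ) ∈ [3, 5, 7, 13, 19, 37, 73] := by simp
  unfold S7 at h
  simp only [force_eq] at h
  have h1 := LL4_sound (lok8 H (by norm_num) ci7 (mem_dvd8 m7)) (by norm_num)
    (H.v0 m7) iq7 H.con cl7 h
  unfold At4 at h1 ⊢
  exact imp_true h1 (ckV4_sound H.r259_2 rfl (tab_259_2 (H.v0 m37) (H.v0 m7)) (tab_259_2 (H.v1 m37) (H.v1 m7)) (tab_259_2 (H.v2 m37) (H.v2 m7))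
    (chv_259_2 z.P) (chv_259_2 z.R))

theorem S8_sound {z : Dat} (H : Sys4e z) {next : ℕ → ℕ → ℕ → ℕ → Leaf}
    (h : S8e c296_7b c296_5b (pP z 37) (pR z 37) (p0 z 37) (p1 z 37) (r2 z 37) (res z.a 4) (res z.b 4) (res z.t 4) next = true) :
    ∃ K T A B, Lin z 5 K T A B ∧ At4 z 8 (next K T A B) := by
  have m3 : (3 : ℕ) ∈ [3, 5, 7, 13, 19, 37, 73] := by simp
  have m5 : (5 : ℕ) ∈ [3, 5, 7, 13, 19, 37, 73] := by simp
  have m7 : (7 : ℕ) ∈ [3, 5, 7, 13, 19, 37, 73] := by simp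
  have m13 : (13 : ℕ) ∈ [3, 5, 7, 13, 19, 37, 73] := by simp
  have m19 : (19 : ℕ) ∈ [3, 5, 7, 13, 19, 37, 73] := by simp
  have m37 : (37 : ℕ) ∈ [3, 5, 7, 13, 19, 37, 73] := by simp
  have m73 : (73 : ℕ) ∈ [3, 5, 7, 13, 19, 37, 73] := by simp
  obtain ⟨o1, o2, o3, o4⟩ := H.par
  unfold S8e at h
  simp only [force_eq] at h
  have h1 := LTe_sound (lok8 H (by norm_num) ci8 (by unfold M8; norm_num)) (by norm_num)
    H.aev H.tod H.Pod H.con cl8e h
  unfold At4 at h1 ⊢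
  have h2 := imp_true (imp_true (imp_true h1 (res_mod84 _)) (res_mod84 _)) (res_mod84 _)
  have h3 := imp_true h2 (ckV4_sound H.r296_7a rfl (tab_296a (H.v0 m37) (V8_of H.tod H.Pod))
    (tab_296a (H.v1 m37) (V8_of o1 o2)) (tab_296a (H.v2 m37) (V8_of o3 o4))
    (chv_296a z.P) (chv_296a z.R))
  have h4 := imp_true h3 (ckV4_sound H.r296_5a rfl (tab_296c (H.v0 m37) (V8_of H.tod H.Pod))
    (tab_296c (H.v1 m37) (V8_of o1 o2)) (tab_296c (H.v2 m37) (V8_of o3 o4))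
    (chv_296c z.P) (chv_296c z.R))
  have ii : idem 37 112 8 185 c296_7b.q = true := by decide
  have ij : idem 37 112 8 185 c296_5b.q = true := by decide
  have h := h4
  obtain ⟨K', T', A', B', L1, h⟩ := cof4_sound H.r296_7b
    (evD_sound c296_7b_ok (by norm_num) (by norm_num) ii _ _)
    (evD_sound c296_7b_ok (by norm_num) (by norm_num) ii _ _)
    (evD_sound c296_7b_ok (by norm_num) (by norm_num) ii _ _)
    (chD_sound (by norm_num) (by norm_num) ii _)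
    (chD_sound (by norm_num) (by norm_num) ii _) h
  have h := imp_true h (ckU4_sound L1)
  obtain ⟨K, T, A, B, L2, h⟩ := cof4_sound H.r296_5b
    (evD_sound c296_5b_ok (by norm_num) (by norm_num) ij _ _)
    (evD_sound c296_5b_ok (by norm_num) (by norm_num) ij _ _)
    (evD_sound c296_5b_ok (by norm_num) (by norm_num) ij _ _)
    (chD_sound (by norm_num) (by norm_num) ij _)
    (chD_sound (by norm_num) (by norm_num) ij _) h
  exact ⟨K, T, A, B, L2, h⟩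

theorem S4_sound {z : Dat} (H : Sys4e z) {next : Leaf}
    (h : S4e (pP z 37) (p0 z 37) (p1 z 37) next = true) : At4 z 4 next := by
  have m3 : (3 : ℕ) ∈ [3, 5, 7, 13, 19, 37, 73] := by simp
  have m5 : (5 : ℕ) ∈ [3, 5, 7, 13, 19, 37, 73] := by simp
  have m7 : (7 : ℕ) ∈ [3, 5, 7, 13, 19, 37, 73] := by simp
  have m13 : (13 : ℕ) ∈ [3, 5, 7, 13, 19, 37, 73] := by simp
  have m19 : (19 : ℕ) ∈ [3, 5, 7, 13, 19, 37, 73] := by simp
  have m37 : (37 : ℕ) ∈ [3, 5, 7, 13, 19, 37, 73] := by simp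
  have m73 : (73 : ℕ) ∈ [3, 5, 7, 13, 19, 37, 73] := by simp
  obtain ⟨o1, o2, o3, o4⟩ := H.par
  unfold S4e at h
  simp only [force_eq] at h
  have h1 := LTe_sound (lok8 H (by norm_num) ci4 (by unfold M8; norm_num)) (by norm_num)
    H.aev H.tod H.Pod H.con cl4e h
  unfold At4 at h1 ⊢
  have h2 := imp_true h1 (ckV4_sound H.r148_19 rfl (tab_148_19 (H.v0 m37) (V4_of H.tod H.Pod))
    (tab_148_19 (H.v1 m37) (V4_of o1 o2)) (tab_148_19 (H.v2 m37) (V4_of o3 o4))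
    (chv_148_19 z.P) (chv_148_19 z.R))
  exact imp_true h2 (ckV4_sound H.r148_7 rfl (tab_148_7 (H.v0 m37) (V4_of H.tod H.Pod))
    (tab_148_7 (H.v1 m37) (V4_of o1 o2)) (tab_148_7 (H.v2 m37) (V4_of o3 o4))
    (chv_148_7 z.P) (chv_148_7 z.R))

/-- the modulus of the conclusion -/
def M7 : ℤ := 8 * 3 * 5 * 7 * 13 * 19 * 37

theorem M7_dvd {x : ℤ} (h8 : ((8 : ℕ) : ℤ) ∣ x) (h3 : ((3 : ℕ) : ℤ) ∣ x) (h5 : ((5 : ℕ) : ℤ) ∣ x)
    (h7 : ((7 : ℕ) : ℤ) ∣ x) (h13 : ((13 : ℕ) : ℤ) ∣ x) (h19 : ((19 : ℕ) : ℤ) ∣ x)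
    (h37 : ((37 : ℕ) : ℤ) ∣ x) : M7 ∣ x := by
  unfold M7
  have c1 : IsCoprime (8 : ℤ) 3 := by norm_num
  have c2 : IsCoprime (8 * 3 : ℤ) 5 := by norm_num
  have c3 : IsCoprime (8 * 3 * 5 : ℤ) 7 := by norm_num
  have c4 : IsCoprime (8 * 3 * 5 * 7 : ℤ) 13 := by norm_num
  have c5 : IsCoprime (8 * 3 * 5 * 7 * 13 : ℤ) 19 := by norm_num
  have c6 : IsCoprime (8 * 3 * 5 * 7 * 13 * 19 : ℤ) 37 := by norm_num
  exact c6.mul_dvd (c5.mul_dvd (c4.mul_dvd (c3.mul_dvd (c2.mul_dvd (c1.mul_dvd (by exact_mod_cast h8)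
    (by exact_mod_cast h3)) (by exact_mod_cast h5)) (by exact_mod_cast h7))
    (by exact_mod_cast h13)) (by exact_mod_cast h19)) (by exact_mod_cast h37)

theorem S37_sound {z : Dat} (H : Sys4e z)
    (h : S37e c532_37 c296_7b c296_5b (res z.a 37) (res z.b 37) (res z.t 37)
      (pP z 37) (pR z 37) (p0 z 37) (p1 z 37) (r2 z 37) = true) : M7 ∣ z.a * (z.a * z.b + 2) := by
  have m3 : (3 : ℕ) ∈ [3, 5, 7, 13, 19, 37, 73] := by simp
  unfold S37e at h
  have h4 := S4_sound H h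
  unfold At4 at h4
  obtain ⟨K, T, A, B, L, h8⟩ := S8_sound H h4
  unfold At4 at h8
  have h7 := S7_sound H h8
  unfold At4 at h7
  have h5 := S5_sound H L h7
  unfold At4 at h5
  have h3 := LL4_sound (lok8 H (by norm_num) ci3 (mem_dvd8 m3)) (by norm_num)
    (H.v0 m3) iq3 H.con cl3 h5
  unfold At4 at h3
  have h19 := S19_sound H h3
  unfold At4 at h19
  have h13 := S13_sound H h19
  unfold At4 at h13
  simp only [cj_true] at h13
  obtain ⟨u37, u8, u7, u5, u3, u19, u13⟩ := h13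
  exact M7_dvd (uz_sound (by norm_num) u8) (uz_sound (by norm_num) u3) (uz_sound (by norm_num) u5)
    (uz_sound (by norm_num) u7) (uz_sound (by norm_num) u13) (uz_sound (by norm_num) u19)
    (uz_sound (by norm_num) u37)

theorem run_sound {z : Dat} (H : Sys4e z) (ht : res z.t 37 < 19)
    (h : rune c532_37 c296_7b c296_5b (res z.a 37) = true) : M7 ∣ z.a * (z.a * z.b + 2) := by
  have m37 : (37 : ℕ) ∈ [3, 5, 7, 13, 19, 37, 73] := by simp
  unfold rune at h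
  have h1 := enF4_sound (lok8 H (by norm_num) ci37 (mem_dvd8 m37)) (by norm_num)
    (H.v0 m37) iq37 H.con ht h
  unfold At4 at h1
  exact S37_sound H h1

theorem mkSys4e {z : Dat} (con : Con4 z) (hP : M8 ∣ z.P * z.Pi - 1) (hR : M8 ∣ z.R * z.Ri - 1)
    (aev : z.a % 4 = 2) (tod : z.t % 2 = 1) (Pod : z.P % 2 = 1)
    (nsq : ∀ l : ℕ, l ∈ [3, 5, 7, 13, 19, 37, 73] → ¬ IsSquare ((z.t ^ 2 + 4 * z.P : ℤ) : ZMod l))
    (hrel : ∀ c : CD, c.OK → c.q ∣ M8n → c.p ∣ M8n → ∀ _ : NeZero c.q,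
      RelM4 (chi c.q c.p c.T) z.t z.P z.a z.b = 0) : Sys4e z := by
  have key : ∀ c : CD, c.OK → c.q ∣ M8n → c.p ∣ M8n → NRel4 c z := by
    intro c hc h1 h2
    have h3 : (c.q : ℤ) ∣ M8 := by rw [M8_eq]; exact Int.natCast_dvd_natCast.mpr h1
    exact nrel4_of hc con (one_of8 hP h3) (one_of8 hR h3) (hrel c hc h1 h2)
  exact
  { con := con
    hP := hP
    hR := hR
    aev := aev
    tod := tod
    Pod := Pod
    nsq := nsq
    r148_7 := key _ c148_7_ok (by decide +kernel) (by decide +kernel)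
    r148_19 := key _ c148_19_ok (by decide +kernel) (by decide +kernel)
    r259_0 := key _ c259_19_0_ok (by decide +kernel) (by decide +kernel)
    r259_1 := key _ c259_19_1_ok (by decide +kernel) (by decide +kernel)
    r259_2 := key _ c259_19_2_ok (by decide +kernel) (by decide +kernel)
    r133_37 := key _ c133_37_ok (by decide +kernel) (by decide +kernel)
    r111_0 := key _ c111_19_0_ok (by decide +kernel) (by decide +kernel)
    r111_1 := key _ c111_19_1_ok (by decide +kernel) (by decide +kernel)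
    r228 := key _ c228_7_ok (by decide +kernel) (by decide +kernel)
    r140 := key _ c140_13_ok (by decide +kernel) (by decide +kernel)
    r95 := key _ c95_13_ok (by decide +kernel) (by decide +kernel)
    r105 := key _ c105_13_ok (by decide +kernel) (by decide +kernel)
    r185 := key _ c185_13_ok (by decide +kernel) (by decide +kernel)
    r133_13 := key _ c133_13_ok (by decide +kernel) (by decide +kernel)
    r91 := key _ c91_37_ok (by decide +kernel) (by decide +kernel)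
    r296_7a := key _ c296_7a_ok (by decide +kernel) (by decide +kernel)
    r296_7b := key _ c296_7b_ok (by decide +kernel) (by decide +kernel)
    r296_5a := key _ c296_5a_ok (by decide +kernel) (by decide +kernel)
    r296_5b := key _ c296_5b_ok (by decide +kernel) (by decide +kernel)
    r280 := key _ c280_37_ok (by decide +kernel) (by decide +kernel)
    r456 := key _ c456_7_ok (by decide +kernel) (by decide +kernel)
    r380 := key _ c380_7_ok (by decide +kernel) (by decide +kernel)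
    r532 := key _ c532_37_ok (by decide +kernel) (by decide +kernel) }

/-- the classes of all runs -/
def AllRune : Prop := ∀ a < 37, rune c532_37 c296_7b c296_5b a = true

theorem core4e_run (hrun : AllRune) {t P a b : ℤ} {D : ℕ} (G : Good4 t P a b D) (ha2 : a % 4 = 2)
    (hP2 : P % 2 = 1) (ht : t % 2 = 1)
    (hin : ∀ l : ℕ, l ∈ [3, 5, 7, 13, 19, 37, 73] → ¬ IsSquare ((t ^ 2 + 4 * P : ℤ) : ZMod l)) :
    M7 ∣ a * (a * b + 2) := by
  obtain ⟨R, hR⟩ : ∃ R, R = 1 + a * t - a ^ 2 * P := ⟨_, rfl⟩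
  obtain ⟨B, hB⟩ : ∃ B, B = 2 * a * P - t := ⟨_, rfl⟩
  have hDi : ∀ l : ℕ, l ∈ [3, 5, 7, 13, 19, 37, 73] → ¬ (l : ℤ) ∣ (t ^ 2 + 4 * P) := by
    intro l hl hd
    apply hin l hl
    rw [(ZMod.intCast_zmod_eq_zero_iff_dvd _ _).mpr hd]
    exact ⟨0, by simp⟩
  have hcP : IsCoprime P M8 := by
    apply isCoprime_M8 hP2
    intro l hl hd
    apply hin l hl
    have : ((P : ℤ) : ZMod l) = 0 := (ZMod.intCast_zmod_eq_zero_iff_dvd _ _).mpr hd
    push_cast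
    rw [this]
    exact ⟨t, by ring⟩
  have hRodd : R % 2 = 1 := by
    obtain ⟨t', ht'⟩ : ∃ k, t = 2 * k + 1 := ⟨t / 2, by omega⟩
    obtain ⟨P', hP'⟩ : ∃ k, P = 2 * k + 1 := ⟨P / 2, by omega⟩
    rw [hR, ht', hP']
    have h3 : (a * (a - 1)) % 2 = 0 := by
      rcases Int.emod_two_eq_zero_or_one a with h | h
      · rw [Int.mul_emod, h, zero_mul]; rfl
      · rw [Int.mul_emod, show (a - 1) % 2 = 0 by omega, mul_zero]; rfl
    have e : 1 + a * (2 * t' + 1) - a ^ 2 * (2 * P' + 1) =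
        1 - a * (a - 1) + 2 * (a * t' - a ^ 2 * P') := by ring
    rw [e]
    omega
  have hcR : IsCoprime R M8 := by
    apply isCoprime_M8 hRodd
    intro l hl hd
    apply hin l hl
    have h0 : ((R : ℤ) : ZMod l) = 0 := (ZMod.intCast_zmod_eq_zero_iff_dvd _ _).mpr hd
    have e : t ^ 2 + 4 * P = B ^ 2 + 4 * P * R := by rw [hR, hB]; ring
    rw [e]
    push_cast
    rw [h0]
    exact ⟨B, by ring⟩
  obtain ⟨Pi, u, hPi⟩ := hcP
  obtain ⟨Ri, v, hRi⟩ := hcR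
  have hP' : M8 ∣ P * Pi - 1 := ⟨-u, by linear_combination hPi⟩
  have hR' : M8 ∣ R * Ri - 1 := ⟨-v, by linear_combination hRi⟩
  have hcD : Nat.Coprime M8n D := by
    have h1 : IsCoprime ((D : ℤ)) M8 := by
      rw [G.hD]
      apply isCoprime_M8 _ hDi
      obtain ⟨t', ht'⟩ : ∃ k, t = 2 * k + 1 := ⟨t / 2, by omega⟩
      rw [ht']
      have e : (2 * t' + 1) ^ 2 + 4 * P = 1 + 2 * (2 * t' ^ 2 + 2 * t' + 2 * P) := by ring
      rw [e]
      omega
    rw [M8_eq] at h1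
    exact (Nat.isCoprime_iff_coprime.mp h1).symm
  have hrel : ∀ c : CD, c.OK → c.q ∣ M8n → c.p ∣ M8n → ∀ _ : NeZero c.q,
      RelM4 (chi c.q c.p c.T) t P a b = 0 := by
    intro c hc h1 h2 _
    have h3 : ¬ (c.p : ℤ) ∣ D := by
      intro h
      have h4 : c.p ∣ D := by exact_mod_cast h
      have h5 : c.p ∣ 1 := by
        rw [← hcD]
        exact Nat.dvd_gcd h2 h4
      exact hc.pp.one_lt.ne' (Nat.dvd_one.mp h5)
    exact G.rel_mod hP2 hc.pp hc.p2 h3 (Nat.Coprime.coprime_dvd_left h1 hcD) _ (chi_mul hc.mul)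
      (chi_neg hc.q1 hc.mul hc.oth) (chi_sum hc.oth)
  by_cases hs : res t 37 < 19
  · have S : Sys4e ⟨t, P, a, b, Pi, Ri⟩ := by
      apply mkSys4e
      · exact G.con
      · exact hP'
      · rw [hR] at hR'; exact hR'
      · exact ha2
      · exact ht
      · exact hP2
      · exact hin
      · exact hrel
    exact run_sound S hs (hrun _ (res_lt a (by norm_num)))
  · have S : Sys4e ⟨-t, P, -a, -b, Pi, Ri⟩ := by
      apply mkSys4e
      · have := G.con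
        unfold Con4 Dat.B1 Dat.R
        simp only
        linear_combination (-1 : ℤ) * this
      · exact hP'
      · have e : (1 + -a * -t - (-a) ^ 2 * P) = R := by rw [hR]; ring
        unfold Dat.R
        simp only
        rw [e]
        exact hR'
      · simp only
        omega
      · simp only
        omega
      · exact hP2
      · intro l hl
        simp only
        rw [neg_sq]
        exact hin l hl
      · intro c hc h1 h2 i
        simp only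
        rw [RelM4_neg, hrel c hc h1 h2 i, neg_zero]
    have hs' : res (-t) 37 < 19 := by
      have e1 := res_int t (M := 37) (by norm_num)
      have e2 := res_int (-t) (M := 37) (by norm_num)
      have h1 := res_lt t (M := 37) (by norm_num)
      have h2 := res_lt (-t) (M := 37) (by norm_num)
      have h3 : (t % 37 + (-t) % 37) % 37 = 0 := by
        rw [← Int.add_emod]; simp
      have e1' : ((res t 37 : ℕ) : ℤ) = t % 37 := e1
      have e2' : ((res (-t) 37 : ℕ) : ℤ) = (-t) % 37 := e2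
      rw [← e1', ← e2'] at h3
      clear e1 e2 e1' e2'
      have h4 : (res t 37 + res (-t) 37) % 37 = 0 := by exact_mod_cast h3
      clear h3
      generalize res t 37 = u at *
      generalize res (-t) 37 = v at *
      omega
    have hfin := run_sound S hs' (hrun _ (res_lt (-a) (by norm_num)))
    have e3 : -a * (-a * -b + 2) = -(a * (a * b + 2)) := by ring
    have hfin' : M7 ∣ -a * (-a * -b + 2) := hfin
    rw [e3] at hfin'
    exact (dvd_neg).mp hfin'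

end Pool.Agent.N863.EP
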