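import Pool.Agent.N863.EP.H1
import Pool.Agent.N156.EP.D1
import Pool.Agent.N156.EP.D2
import Pool.Agent.N156.EP.D3
import Pool.Agent.N156.EP.D6

/-! The search. -/

set_option maxRecDepth 1000000

namespace Pool.Agent.N863.EP

open H419R2 Pool.Agent.N911 Pool.Agent.N156.EP

theorem rune_10 : rune c532_37 c296_7b c296_5b 10 = true := by decide +kernel
theorem rune_11 : rune c532_37 c296_7b c296_5b 11 = true := by decide +kernel
theorem rune_12 : rune c532_37 c296_7b c296_5b 12 = true := by decide +kernel
theorem rune_13 : rune c532_37 c296_7b c296_5b 13 = true := by decide +kernel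
theorem rune_14 : rune c532_37 c296_7b c296_5b 14 = true := by decide +kernel
theorem rune_15 : rune c532_37 c296_7b c296_5b 15 = true := by decide +kernel
theorem rune_16 : rune c532_37 c296_7b c296_5b 16 = true := by decide +kernel
theorem rune_17 : rune c532_37 c296_7b c296_5b 17 = true := by decide +kernel
theorem rune_18 : rune c532_37 c296_7b c296_5b 18 = true := by decide +kernel

end Pool.Agent.N863.EP
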