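import Pool.Agent.N863.EP.H1
import Pool.Agent.N156.EP.D1
import Pool.Agent.N156.EP.D2
import Pool.Agent.N156.EP.D3
import Pool.Agent.N156.EP.D6

/-! The search. -/

set_option maxRecDepth 1000000

namespace Pool.Agent.N863.EP

open H419R2 Pool.Agent.N911 Pool.Agent.N156.EP

theorem rune_19 : rune c532_37 c296_7b c296_5b 19 = true := by decide +kernel
theorem rune_20 : rune c532_37 c296_7b c296_5b 20 = true := by decide +kernel
theorem rune_21 : rune c532_37 c296_7b c296_5b 21 = true := by decide +kernel
theorem rune_22 : rune c532_37 c296_7b c296_5b 22 = true := by decide +kernel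
theorem rune_23 : rune c532_37 c296_7b c296_5b 23 = true := by decide +kernel
theorem rune_24 : rune c532_37 c296_7b c296_5b 24 = true := by decide +kernel
theorem rune_25 : rune c532_37 c296_7b c296_5b 25 = true := by decide +kernel
theorem rune_26 : rune c532_37 c296_7b c296_5b 26 = true := by decide +kernel
theorem rune_27 : rune c532_37 c296_7b c296_5b 27 = true := by decide +kernel

end Pool.Agent.N863.EP
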