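import Pool.Agent.N863.EP.W1
import Pool.Agent.N863.EP.W2
import Pool.Agent.N863.EP.W3
import Pool.Agent.N863.EP.W4
import Pool.Agent.N863.EP.W5
import Pool.Agent.N863.EP.H2

/-! All classes of the search. -/

set_option maxRecDepth 100000

namespace Pool.Agent.N863.EP

open H419R2 Pool.Agent.N911 Pool.Agent.N156.EP

theorem allRune : AllRune := by
  intro a ha
  match a, ha with
  | 0, _ => exact rune_0
  | 1, _ => exact rune_1
  | 2, _ => exact rune_2
  | 3, _ => exact rune_3
  | 4, _ => exact rune_4
  | 5, _ => exact rune_5
  | 6, _ => exact rune_6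
  | 7, _ => exact rune_7
  | 8, _ => exact rune_8
  | 9, _ => exact rune_9
  | 10, _ => exact rune_10
  | 11, _ => exact rune_11
  | 12, _ => exact rune_12
  | 13, _ => exact rune_13
  | 14, _ => exact rune_14
  | 15, _ => exact rune_15
  | 16, _ => exact rune_16
  | 17, _ => exact rune_17
  | 18, _ => exact rune_18
  | 19, _ => exact rune_19
  | 20, _ => exact rune_20
  | 21, _ => exact rune_21
  | 22, _ => exact rune_22
  | 23, _ => exact rune_23
  | 24, _ => exact rune_24
  | 25, _ => exact rune_25
  | 26, _ => exact rune_26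
  | 27, _ => exact rune_27
  | 28, _ => exact rune_28
  | 29, _ => exact rune_29
  | 30, _ => exact rune_30
  | 31, _ => exact rune_31
  | 32, _ => exact rune_32
  | 33, _ => exact rune_33
  | 34, _ => exact rune_34
  | 35, _ => exact rune_35
  | 36, _ => exact rune_36
  | n + 37, h => exact absurd h (by omega)

end Pool.Agent.N863.EP
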