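import Pool.Agent.N863.EP.F1
import Pool.Agent.N863.EP.E6
import Pool.Agent.N863.EP.WW
import Pool.Agent.N863.EP.U3
import Pool.Agent.N156.EP.WW

/-! Period four: the end of the proof. -/

namespace Pool.Agent.N863.EP

open Pool.Agent.N156.EP H419R2
open Pool.Agent.N911 (nextQ)

theorem core : Core := fun t P a b D G ha ht _ hin => Pool.Agent.N156.EP.core4 t P a b D G ha ht hin

theorem core_even {t P a b : ℤ} {D : ℕ} (G : Good4 t P a b D) (hto : t % 2 = 1)
    (hae : a % 2 = 0) (hPo : P % 2 = 1) (hR : (1 + a * t - a ^ 2 * P) % 4 = 3)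
    (hin : Inert D [3, 5, 7, 13, 19, 37, 73]) : M7 ∣ a * (a * b + 2) := by
  have ha4 : a % 4 = 2 := by
    obtain ⟨a', ha'⟩ : ∃ k, a = 2 * k := ⟨a / 2, by omega⟩
    obtain ⟨t', ht'⟩ : ∃ k, t = 2 * k + 1 := ⟨t / 2, by omega⟩
    rw [ha', ht'] at hR
    have e : 1 + 2 * a' * (2 * t' + 1) - (2 * a') ^ 2 * P = 1 + 2 * a' + 4 * (a' * t' - a' ^ 2 * P) := by
      ring
    rw [e] at hR
    omega
  apply core4e_run allRune G ha4 hPo hto
  intro l hl hs
  apply hin l hl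
  have e : ((D : ℕ) : ZMod l) = ((D : ℤ) : ZMod l) := by push_cast; rfl
  rw [e, G.hD]
  exact hs

theorem final_all {d : ℕ} (hsf : Squarefree d) (hd1 : 1 < d) (h4 : d % 4 = 1)
    {K : Type*} [Field K] [NumberField K] (hK : Module.finrank ℚ K = 2) {x : K}
    (hx : x ^ 2 = (d : K)) (hcl : NumberField.classNumber K = 1)
    (hper : N367.EP.perLen d = 4) {T U : ℤ} (hTU : T ^ 2 - d * U ^ 2 = 4 ∨ T ^ 2 - d * U ^ 2 = -4)
    (hU : ¬ (7676760 : ℤ) ∣ U) : d ∈ Fin13 := by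
  obtain ⟨t, P, b, ht, hto, hD, hP, ha, hor, G⟩ :=
    N367.EP.good hsf hd1 h4 hK hx hcl (Or.inr hper)
  have hpar : Par4 t P ⌊nextQ (N367.EP.omega d)⌋ b := by
    rcases hor with ⟨h, -⟩ | ⟨-, h⟩
    · omega
    · exact h
  obtain ⟨a, hae⟩ : ∃ a : ℤ, a = ⌊nextQ (N367.EP.omega d)⌋ := ⟨_, rfl⟩
  rw [← hae] at hpar G ha
  have hsf' : Squarefree (d : ℤ) := Int.squarefree_natCast.mpr hsf
  have hx' : x ^ 2 = ((d : ℤ) : K) := by rw [hx]; push_cast; rfl
  have hR := genus hpar hD hsf' hto hK hx' hcl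
  rcases Int.emod_two_eq_zero_or_one a with hev | hao
  · rcases reduce_even G hpar hto hev hR with h | ⟨hPo, h⟩
    · exact h
    · exfalso
      apply hU
      have h1 := core_even G hto hev hPo hR h
      have h2 := unit_dvd hpar hto hD hTU
      have e : (7676760 : ℤ) = M7 := by unfold M7; norm_num
      rw [e]
      exact h1.trans h2
  · rcases reduce G hpar hto hao hR with h | ⟨-, h⟩
    · exact h
    · exact (core t P a b d G hao hto hR h).elim

end Pool.Agent.N863.EP
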