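import Pool.Agent.N156.EP.K3

/-! The search for cycles of length 4 with `a ≡ 2 (mod 4)`. -/

set_option maxRecDepth 100000

namespace Pool.Agent.N863.EP

open H419R2
open Pool.Agent.N911 Pool.Agent.N156.EP

/-- local data modulo 4 -/
def N4e : LL := (LL.cons 2 1 1 7 21 35 105 49 (LL.cons 2 1 1 21 21 49 35 35 (LL.cons 2 3 3 7 21 91 49 105 (LL.cons 2 3 3 21 21 105 91 91 LL.nil))))
/-- local data modulo 8 -/
def N8e : LL := (LL.cons 2 1 5 7 49 287 441 105 (LL.cons 2 1 5 21 49 301 315 91 (LL.cons 2 1 5 35 49 315 189 77 (LL.cons 2 1 5 49 49 329 63 63 (LL.cons 2 3 3 7 21 175 77 189 (LL.cons 2 3 3 21 21 189 175 175 (LL.cons 2 3 3 35 21 203 329 217 (LL.cons 2 3 3 49 21 217 427 203 (LL.cons 2 5 1 7 49 63 217 329 (LL.cons 2 5 1 21 49 77 91 315 (LL.cons 2 5 1 35 49 91 413 301 (LL.cons 2 5 1 49 49 105 287 287 (LL.cons 2 7 7 7 21 399 301 413 (LL.cons 2 7 7 21 21 413 399 399 (LL.cons 2 7 7 35 21 427 105 441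 (LL.cons 2 7 7 49 21 441 203 427 (LL.cons 6 1 1 7 21 63 189 77 (LL.cons 6 1 1 21 21 77 63 63 (LL.cons 6 1 1 35 21 91 441 105 (LL.cons 6 1 1 49 21 105 315 91 (LL.cons 6 3 7 7 49 399 329 217 (LL.cons 6 3 7 21 49 413 427 203 (LL.cons 6 3 7 35 49 427 77 189 (LL.cons 6 3 7 49 49 441 175 175 (LL.cons 6 5 5 7 21 287 413 301 (LL.cons 6 5 5 21 21 301 287 287 (LL.cons 6 5 5 35 21 315 217 329 (LL.cons 6 5 5 49 21 329 91 315 (LL.cons 6 7 3 7 49 175 105 441 (LL.cons 6 7 3 21 49 189 203 427 (LL.cons 6 7 3 35 49 203 301 413 (LL.cons 6 7 3 49 49 217 399 399 LL.nil))))))))))))))))))))))))))))))))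

/-- stage modulo 4 -/
noncomputable def S4e (P37 i37 j37 : ℕ) (next : Leaf) : Bool :=
  force (sl 16 E148_19 i37) (fun e0 => force (sl 16 E148_19 j37) (fun e1 =>
  force (sl 4 X148_19 P37) (fun xP =>
  force (sl 16 E148_7 i37) (fun f0 => force (sl 16 E148_7 j37) (fun f1 =>
  force (sl 4 X148_7 P37) (fun yP =>
  N4e.all (fun a b t P R i j k => imp (ckV4 19 xP e0 e1 P i j) (imp (ckV4 7 yP f0 f1 P i j)
    (next a b t P R i j k)))))))))

/-- stage modulo 8 -/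
noncomputable def S8e (cI cJ : CD) (P37 R37 i37 j37 k37 a4 b4 t4 : ℕ)
    (next : ℕ → ℕ → ℕ → ℕ → Leaf) : Bool :=
  force (sl 64 E296a i37) (fun e0 => force (sl 64 E296a j37) (fun e1 =>
  force (sl 8 X296a P37) (fun xP =>
  force (sl 64 E296c i37) (fun f0 => force (sl 64 E296c j37) (fun f1 =>
  force (sl 8 X296c P37) (fun yP =>
  N8e.all (fun a b t P R i j k =>
    imp (Nat.beq (Nat.mod a 4) a4) (imp (Nat.beq (Nat.mod b 4) b4) (imp (Nat.beq (Nat.mod t 4) t4)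
    (imp (ckV4 7 xP e0 e1 P i j) (imp (ckV4 5 yP f0 f1 P i j)
    (cof4 (chD cI 112 185 P37 P) (chD cI 112 185 R37 R) (evD cI 37 112 8 185 i37 i)
      (evD cI 37 112 8 185 j37 j) (evD cI 37 112 8 185 k37 k) (fun K T A B =>
    imp (ckU4 7 K T A B)
    (cof4 (chD cJ 112 185 P37 P) (chD cJ 112 185 R37 R) (evD cJ 37 112 8 185 i37 i)
      (evD cJ 37 112 8 185 j37 j) (evD cJ 37 112 8 185 k37 k) (fun K T A B =>
      next K T A B a b t P R i j k)))))))))))))))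

/-- the second coordinate of the unit of the period vanishes -/
def uz (l a b : ℕ) : Bool := Nat.beq (Nat.mod (Nat.mul a (Nat.add (Nat.mul a b) 2)) l) 0

/-- leaf modulo 37 -/
noncomputable def S37e (cH cI cJ : CD)
    (a37 b37 t37 P37 R37 i37 j37 k37 : ℕ) : Bool :=
  S4e P37 i37 j37 (fun a4 b4 t4 P4 R4 i4 j4 k4 =>
  S8e cI cJ P37 R37 i37 j37 k37 a4 b4 t4 (fun K T A B a8 b8 _ P8 _ i8 j8 _ =>
  S7 P37 i37 j37 (fun a7 b7 t7 P7 R7 i7 j7 k7 =>
  S5 K T A B P7 i7 j7 P4 i4 j4 P8 i8 j8 (fun a5 b5 _ P5 R5 i5 j5 k5 =>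
  N3.all (fun a3 b3 _ P3 R3 i3 j3 k3 =>
  S19 cH a37 b37 t37 P37 R37 i37 j37 k37 P3 R3 i3 j3 k3 P4 R4 i4 j4 k4 P5 R5 i5 j5 k5
    a7 b7 t7 P7 R7 i7 j7 k7 P8 i8 j8 (fun a19 b19 _ P19 R19 i19 j19 k19 =>
  S13 a37 b37 t37 P37 R37 i37 j37 k37 P7 R7 i7 j7 k7 P19 R19 i19 j19 k19
    P3 R3 i3 j3 k3 P5 R5 i5 j5 k5 (fun a13 b13 _ _ _ _ _ _ =>
    cj (uz 37 a37 b37) (cj (uz 8 a8 b8) (cj (uz 7 a7 b7) (cj (uz 5 a5 b5) (cj (uz 3 a3 b3)
      (cj (uz 19 a19 b19) (uz 13 a13 b13)))))))))))))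

/-- the whole search for one value of `a` modulo 37 -/
noncomputable def rune (cH cI cJ : CD) (a37 : ℕ) : Bool :=
  enF4 37 I37 Q37 a37 19 (S37e cH cI cJ)

/-- check of the list modulo a power of two, `a ≡ 2 (mod 4)` -/
noncomputable def chkLTe (l I : ℕ) (L : LL) : Bool :=
  allN l (fun a => imp (Nat.beq (Nat.mod a 4) 2)
    (allN l (fun b => cont4 l a b (fun q0 q1 q2 => allN l (fun t => allN l (fun P =>
    imp (Nat.beq (Nat.mod t 2) 1) (imp (Nat.beq (Nat.mod P 2) 1)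
      (imp (Nat.beq (Nat.mod (Nat.mul P q0) l) (Nat.mod (Nat.add (Nat.mul t q1) q2) l))
        (geo4 l I a b t P (fun a b t P R k0 k1 k2 => L.any (eqL a b t P R k0 k1 k2)))))))))))

theorem LTe_sound {z : Dat} {l I : ℕ} {L : LL} (H : LOK z l I) (h4l : 4 ∣ l)
    (ha : z.a % 4 = 2) (ht : z.t % 2 = 1) (hP : z.P % 2 = 1) (hcon : Con4 z)
    (hL : chkLTe l I L = true) {f : Leaf} (h : L.all f = true) : At4 z l f := by
  have hl0 : 0 < l := by have := H.l1; omega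
  have h2l : 2 ∣ l := (show 2 ∣ 4 by norm_num).trans h4l
  have par : ∀ x : ℤ, x % 2 = 1 → Nat.beq (Nat.mod (res x l) 2) 1 = true := by
    intro x hx
    have e := res_int x (M := l) hl0
    have : Nat.mod (res x l) 2 = 1 := by
      change res x l % 2 = 1
      have h1 : ((res x l : ℕ) : ℤ) % 2 = x % 2 := by
        rw [e]
        exact Int.emod_emod_of_dvd x (by exact_mod_cast h2l)
      omega
    rw [this]; rfl
  have par4 : Nat.beq (Nat.mod (res z.a l) 4) 2 = true := by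
    have e := res_int z.a (M := l) hl0
    have : Nat.mod (res z.a l) 4 = 2 := by
      change res z.a l % 4 = 2
      have h1 : ((res z.a l : ℕ) : ℤ) % 4 = z.a % 4 := by
        rw [e]
        exact Int.emod_emod_of_dvd z.a (by exact_mod_cast h4l)
      omega
    rw [this]; rfl
  unfold chkLTe at hL
  rw [allN_iff] at hL
  have h0 := imp_true (hL _ (res_lt z.a hl0)) par4
  rw [allN_iff] at h0
  obtain ⟨q0, q1, q2, hq, h2⟩ := cont4_sound hl0 (h0 _ (res_lt z.b hl0))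
  rw [allN_iff] at h2
  have h3 := h2 _ (res_lt z.t hl0)
  rw [allN_iff] at h3
  have h4 := h3 _ (res_lt z.P hl0)
  have h7 := imp_true (imp_true h4 (par _ ht)) (par _ hP)
  have ce := congrArg (fun x : ℤ => (x : ZMod l)) (con4_eq hcon)
  push_cast at ce
  have h8 : ((res z.P l * q0 : ℕ) : ZMod l) = ((res z.t l * q1 + q2 : ℕ) : ZMod l) := by
    push_cast
    rw [res_cast' z.P hl0, res_cast' z.t hl0, hq.c0, hq.c1, hq.c2]
    exact ce
  rw [ZMod.natCast_eq_natCast_iff'] at h8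
  have h9 : Nat.beq (Nat.mod (Nat.mul (res z.P l) q0) l)
      (Nat.mod (Nat.add (Nat.mul (res z.t l) q1) q2) l) = true := by
    change Nat.beq (res z.P l * q0 % l) ((res z.t l * q1 + q2) % l) = true
    rw [h8]; exact Nat.beq_refl _
  have h10 := geo4_sound H (imp_true h7 h9)
  unfold At4 at h10 ⊢
  exact LL.all_any h h10

theorem uz_sound {l : ℕ} (hl0 : 0 < l) {a b : ℤ} (h : uz l (res a l) (res b l) = true) :
    (l : ℤ) ∣ a * (a * b + 2) := by
  unfold uz at h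
  have h1 : ((res a l * (res a l * res b l + 2) : ℕ) : ZMod l) = 0 := by
    rw [ZMod.natCast_eq_zero_iff]
    exact Nat.dvd_of_mod_eq_zero (Nat.eq_of_beq_eq_true h)
  rw [← ZMod.intCast_zmod_eq_zero_iff_dvd]
  push_cast at h1 ⊢
  rw [res_cast' a hl0, res_cast' b hl0] at h1
  exact h1

end Pool.Agent.N863.EP
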