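import Pool.Agent.N863.EP.H1
import Pool.Agent.N156.EP.D1
import Pool.Agent.N156.EP.D2
import Pool.Agent.N156.EP.D3
import Pool.Agent.N156.EP.D6

/-! The search. -/

set_option maxRecDepth 1000000

namespace Pool.Agent.N863.EP

open H419R2 Pool.Agent.N911 Pool.Agent.N156.EP

theorem rune_0 : rune c532_37 c296_7b c296_5b 0 = true := by decide +kernel
theorem rune_1 : rune c532_37 c296_7b c296_5b 1 = true := by decide +kernel
theorem rune_2 : rune c532_37 c296_7b c296_5b 2 = true := by decide +kernel
theorem rune_3 : rune c532_37 c296_7b c296_5b 3 = true := by decide +kernel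
theorem rune_4 : rune c532_37 c296_7b c296_5b 4 = true := by decide +kernel
theorem rune_5 : rune c532_37 c296_7b c296_5b 5 = true := by decide +kernel
theorem rune_6 : rune c532_37 c296_7b c296_5b 6 = true := by decide +kernel
theorem rune_7 : rune c532_37 c296_7b c296_5b 7 = true := by decide +kernel
theorem rune_8 : rune c532_37 c296_7b c296_5b 8 = true := by decide +kernel
theorem rune_9 : rune c532_37 c296_7b c296_5b 9 = true := by decide +kernel

end Pool.Agent.N863.EP
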